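import Pool.Agent.L7h26.BW.Bvg
import Pool.Agent.L7h18.BP.Stm

/-!
# Project BP: Bombieri-Vinogradov in windows with a power saving exceptional set (`S_CH2 → S_BVP`)
-/

set_option autoImplicit false

namespace Pool.Agent.L7h29.BP

open Finset Filter MeasureTheory
open Pool.Agent.L7h88.BW
open Pool.Agent.L7h18.BP
open Pool.Agent.L7h26.BW (win mem_win win_eq Wn_eq_WM WM thw ppw GF GF_nonneg disc3 exists_shift
  sum_inv_phi_le pow_le_exp)

lemma exp_le_of_half {x : ℝ} (h0 : 0 ≤ x) (h : x ≤ 1 / 2) : Real.exp x ≤ 1 + 2 * x := by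
  have h1 : 1 - x ≤ Real.exp (-x) := by linarith [Real.add_one_le_exp (-x)]
  have h2 : Real.exp x * Real.exp (-x) = 1 := by rw [← Real.exp_add]; simp
  have h3 : 0 < Real.exp x := Real.exp_pos x
  have h4 : Real.exp x * (1 - x) ≤ 1 :=
    (mul_le_mul_of_nonneg_left h1 h3.le).trans h2.le
  by_contra hcon
  push Not at hcon
  have h5 : (1 + 2 * x) * (1 - x) < Real.exp x * (1 - x) :=
    mul_lt_mul_of_pos_right hcon (by linarith)
  nlinarith

/-- the integers of the window -/
lemma win_card_le {M : ℕ} {u κ : ℝ} (hκ0 : 0 ≤ κ) (hκ : κ ≤ 1 / 2) :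
    ((win M u κ).card : ℝ) ≤ 2 * κ * Real.exp u + 1 := by
  have hsub : win M u κ ⊆ Ioc ⌊Real.exp u⌋₊ ⌊Real.exp (u + κ)⌋₊ := by
    intro n hn
    rw [mem_win] at hn
    obtain ⟨⟨hn1, _⟩, hu, hu'⟩ := hn
    have hn0 : (0 : ℝ) < n := by exact_mod_cast hn1
    rw [mem_Ioc, Nat.floor_lt (Real.exp_pos _).le, Nat.le_floor_iff (Real.exp_pos _).le]
    exact ⟨(Real.lt_log_iff_exp_lt hn0).1 hu, (Real.log_le_iff_le_exp hn0).1 hu'⟩
  have h1 : ((win M u κ).card : ℝ) ≤ (⌊Real.exp (u + κ)⌋₊ : ℝ) - ⌊Real.exp u⌋₊ := by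
    have h2 := card_le_card hsub
    rw [Nat.card_Ioc] at h2
    have h3 : ⌊Real.exp u⌋₊ ≤ ⌊Real.exp (u + κ)⌋₊ :=
      Nat.floor_le_floor (Real.exp_le_exp.2 (by linarith))
    calc ((win M u κ).card : ℝ) ≤ ((⌊Real.exp (u + κ)⌋₊ - ⌊Real.exp u⌋₊ : ℕ) : ℝ) := by
          exact_mod_cast h2
      _ = _ := Nat.cast_sub h3
  have h2 := Nat.floor_le (Real.exp_pos (u + κ)).le
  have h3 := (Nat.lt_floor_add_one (Real.exp u)).le
  have h4 := exp_le_of_half hκ0 hκ
  have h6 : Real.exp (u + κ) = Real.exp u * Real.exp κ := Real.exp_add _ _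
  have h5 := mul_le_mul_of_nonneg_left h4 (Real.exp_pos u).le
  linarith

/-- the proper prime powers of the window -/
lemma ppw_le {M : ℕ} {u κ : ℝ} (hκ0 : 0 ≤ κ) (hκ : κ ≤ 1 / 2) (hu : 1 ≤ u) :
    ppw M u κ ≤ 2 * (u + 1) * (κ * Real.exp (u / 2) + 1) * (u + 1) := by
  classical
  set S : Finset ℕ := (win M u κ).filter (fun n => IsPrimePow n ∧ ¬ n.Prime) with hS
  set K : ℕ := ⌊2 * (u + 1)⌋₊ with hK
  have hKu : (K : ℝ) ≤ 2 * (u + 1) := Nat.floor_le (by linarith)
  have h1 : ppw M u κ ≤ S.card * (u + 1) := by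
    unfold ppw
    have h2 : ∑ n ∈ win M u κ, (if n.Prime then 0 else ArithmeticFunction.vonMangoldt n) =
        ∑ n ∈ S, ArithmeticFunction.vonMangoldt n := by
      rw [hS, sum_filter]
      refine sum_congr rfl fun n _ => ?_
      by_cases hp : n.Prime
      · rw [if_pos hp, if_neg (fun h => h.2 hp)]
      · by_cases hq : IsPrimePow n
        · rw [if_neg hp, if_pos ⟨hq, hp⟩]
        · rw [if_neg hp, if_neg (fun h => hq h.1)]
          exact ArithmeticFunction.vonMangoldt_eq_zero_iff.2 hq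
    rw [h2]
    refine (sum_le_card_nsmul S _ (u + 1) fun n hn => ?_).trans (le_of_eq (nsmul_eq_mul _ _))
    rw [hS, mem_filter, mem_win] at hn
    refine (ArithmeticFunction.vonMangoldt_le_log).trans ?_
    linarith [hn.1.2.2]
  have h2 : S ⊆ (Icc 2 K).biUnion fun k =>
      (Ioc ⌊Real.exp (u / k)⌋₊ ⌊Real.exp ((u + κ) / k)⌋₊).image fun p => p ^ k := by
    intro n hn
    rw [hS, mem_filter, mem_win] at hn
    obtain ⟨⟨⟨hn1, _⟩, hu1, hu2⟩, hpp, hnp⟩ := hn
    obtain ⟨p, k, hp, hk, rfl⟩ := hpp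
    have hp' : p.Prime := hp.nat_prime
    have hk2 : 2 ≤ k := by
      rcases Nat.lt_or_ge k 2 with h | h
      · have : k = 1 := by omega
        subst this
        rw [pow_one] at hnp
        exact absurd hp' hnp
      · exact h
    have hk0 : (0 : ℝ) < k := by exact_mod_cast hk
    have hp0 : (0 : ℝ) < p := by exact_mod_cast hp'.pos
    rw [Nat.cast_pow, Real.log_pow] at hu1 hu2
    rw [mem_biUnion]
    refine ⟨k, ?_, ?_⟩
    · rw [mem_Icc]
      refine ⟨hk2, ?_⟩
      rw [hK, Nat.le_floor_iff (by linarith)]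
      have h3 : Real.log 2 ≤ Real.log p := Real.log_le_log (by norm_num) (by exact_mod_cast hp'.two_le)
      have h4 : 1 / 2 ≤ Real.log 2 := by linarith [Real.log_two_gt_d9]
      have h5 : (k : ℝ) * (1 / 2) ≤ k * Real.log p := by
        apply mul_le_mul_of_nonneg_left _ hk0.le
        linarith
      linarith
    · rw [mem_image]
      refine ⟨p, ?_, rfl⟩
      rw [mem_Ioc, Nat.floor_lt (Real.exp_pos _).le, Nat.le_floor_iff (Real.exp_pos _).le]
      constructor
      · rw [← Real.lt_log_iff_exp_lt hp0, div_lt_iff₀ hk0, mul_comm]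
        exact hu1
      · rw [← Real.log_le_iff_le_exp hp0, le_div_iff₀ hk0, mul_comm]
        exact hu2
  have h3 : (S.card : ℝ) ≤ K * (κ * Real.exp (u / 2) + 1) := by
    calc (S.card : ℝ) ≤ (((Icc 2 K).biUnion fun k =>
          (Ioc ⌊Real.exp (u / k)⌋₊ ⌊Real.exp ((u + κ) / k)⌋₊).image fun p => p ^ k).card : ℝ) := by
          exact_mod_cast card_le_card h2
      _ ≤ ((∑ k ∈ Icc 2 K, ((Ioc ⌊Real.exp (u / k)⌋₊ ⌊Real.exp ((u + κ) / k)⌋₊).image
          fun p => p ^ k).card : ℕ) : ℝ) := by exact_mod_cast card_biUnion_le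
      _ = ∑ k ∈ Icc 2 K, (((Ioc ⌊Real.exp (u / k)⌋₊ ⌊Real.exp ((u + κ) / k)⌋₊).image
          fun p => p ^ k).card : ℝ) := by push_cast; rfl
      _ ≤ ∑ _k ∈ Icc 2 K, (κ * Real.exp (u / 2) + 1) := by
          refine sum_le_sum fun k hk => ?_
          rw [mem_Icc] at hk
          have hk2 : (2 : ℝ) ≤ k := by exact_mod_cast hk.1
          have hk0 : (0 : ℝ) < k := by linarith
          have h4 : ⌊Real.exp (u / k)⌋₊ ≤ ⌊Real.exp ((u + κ) / k)⌋₊ :=
            Nat.floor_le_floor (Real.exp_le_exp.2 (by gcongr; linarith))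
          have h5 : (((Ioc ⌊Real.exp (u / k)⌋₊ ⌊Real.exp ((u + κ) / k)⌋₊).image
              fun p => p ^ k).card : ℝ) ≤ (⌊Real.exp ((u + κ) / k)⌋₊ : ℝ) - ⌊Real.exp (u / k)⌋₊ := by
            rw [← Nat.cast_sub h4, ← Nat.card_Ioc]
            exact_mod_cast card_image_le
          have h6 := Nat.floor_le (Real.exp_pos ((u + κ) / k)).le
          have h7 := (Nat.lt_floor_add_one (Real.exp (u / k))).le
          have h8 : Real.exp ((u + κ) / k) = Real.exp (u / k) * Real.exp (κ / k) := by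
            rw [← Real.exp_add, add_div]
          have h9 : κ / k ≤ κ / 2 := div_le_div_of_nonneg_left hκ0 (by norm_num) hk2
          have h10 : Real.exp (κ / k) ≤ 1 + 2 * (κ / k) :=
            exp_le_of_half (by positivity) (by linarith)
          have h11 : Real.exp (u / k) ≤ Real.exp (u / 2) :=
            Real.exp_le_exp.2 (div_le_div_of_nonneg_left (by linarith) (by norm_num) hk2)
          have h12 : Real.exp ((u + κ) / k) ≤ Real.exp (u / k) + κ * Real.exp (u / 2) := by
            rw [h8]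
            calc Real.exp (u / k) * Real.exp (κ / k) ≤ Real.exp (u / k) * (1 + κ) := by
                  apply mul_le_mul_of_nonneg_left _ (Real.exp_pos _).le
                  linarith
              _ = Real.exp (u / k) + κ * Real.exp (u / k) := by ring
              _ ≤ _ := by gcongr
          linarith
      _ = ((Icc 2 K).card : ℝ) * (κ * Real.exp (u / 2) + 1) := by
          rw [sum_const, nsmul_eq_mul]
      _ ≤ K * (κ * Real.exp (u / 2) + 1) := by
          have h4 : ((Icc 2 K).card : ℝ) ≤ K := by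
            rw [Nat.card_Icc]
            exact_mod_cast (by omega : K + 1 - 2 ≤ K)
          exact mul_le_mul_of_nonneg_right h4 (by positivity)
  have h4 : 0 ≤ κ * Real.exp (u / 2) + 1 := by positivity
  calc ppw M u κ ≤ S.card * (u + 1) := h1
    _ ≤ (K * (κ * Real.exp (u / 2) + 1)) * (u + 1) :=
        mul_le_mul_of_nonneg_right h3 (by linarith)
    _ ≤ _ := by
        apply mul_le_mul_of_nonneg_right _ (by linarith)
        exact mul_le_mul_of_nonneg_right hKu h4

lemma thw_le {M : ℕ} {u κ : ℝ} (hκ0 : 0 ≤ κ) (hκ : κ ≤ 1 / 2) (hu : 1 ≤ u) :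
    thw M u κ ≤ (2 * κ * Real.exp u + 1) * (u + 1) := by
  unfold thw
  refine (sum_le_card_nsmul _ _ (u + 1) fun n hn => ?_).trans ?_
  · rw [mem_win] at hn
    split_ifs
    · linarith [hn.2.2]
    · linarith
  · rw [nsmul_eq_mul]
    exact mul_le_mul_of_nonneg_right (win_card_le hκ0 hκ) (by linarith)

/-- **S_BVP.** -/
theorem s_BVP (hCH : S_CH2) : S_BVP := by
  classical
  obtain ⟨δ, η₁, hδ, hδ1, hη₁, hC⟩ := hCH
  refine ⟨δ, min (η₁ / 3) 0.004, hδ, hδ1, by positivity, min_le_right _ _, fun A => ?_⟩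
  set η : ℝ := min (η₁ / 3) 0.004 with hη
  have hη0 : 0 < η := by positivity
  have hηη : η ≤ η₁ / 3 := min_le_left _ _
  have hη4 : η ≤ 0.004 := min_le_right _ _
  obtain ⟨Y₁, hY₁⟩ := hC (A + 4)
  obtain ⟨Y₂, hY₂1, hY₂⟩ := pow_le_exp (A + 4) (min (1 / 100) (η₁ / 3)) (by positivity)
  refine ⟨max (max Y₁ Y₂) 2000, fun Y hY κ hκ1 hκ2 => ?_⟩
  have hYY₁ : Y₁ ≤ Y := (le_max_left _ _).trans ((le_max_left _ _).trans hY)
  have hYY₂ : Y₂ ≤ Y := (le_max_right _ _).trans ((le_max_left _ _).trans hY)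
  have hY1000 : 2000 ≤ Y := (le_max_right _ _).trans hY
  have hκ0 : 0 < κ := (Real.exp_pos _).trans_le hκ1
  have hκ504 : Real.exp (-(0.504 * Y)) ≤ κ := by
    refine (Real.exp_le_exp.2 ?_).trans hκ1
    nlinarith
  have hκ4 : κ ≤ 1 / 4 := by
    refine hκ2.trans ?_
    have h1 : Real.exp (-(Y / 4)) = (Real.exp (Y / 4))⁻¹ := Real.exp_neg _
    have h2 : 4 ≤ Real.exp (Y / 4) := by linarith [Real.add_one_le_exp (Y / 4)]
    rw [h1, one_div]
    exact inv_anti₀ (by norm_num) h2
  obtain ⟨Ef, hE0, hEi, hEint, hEle⟩ := hY₁ Y hYY₁ κ hκ504 hκ4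
  set F : ℕ := Gc δ Y with hF
  set M : ℕ := ⌊Real.exp (Y + 1)⌋₊ with hMdef
  have hMu : ∀ u : ℝ, u ≤ Y + 1 / 4 → Real.exp (u + κ) ≤ M := by
    intro u hu
    have h1 : Real.exp (u + κ) ≤ Real.exp (Y + 1 / 2) := Real.exp_le_exp.2 (by linarith)
    have h2 : Real.exp (Y + 1 / 2) + 1 ≤ Real.exp (Y + 1) := by
      have h3 : Real.exp (Y + 1) = Real.exp (Y + 1 / 2) * Real.exp (1 / 2) := by
        rw [← Real.exp_add]; congr 1; ring
      have h4 : 3 / 2 ≤ Real.exp (1 / 2) := by linarith [Real.add_one_le_exp (1 / 2 : ℝ)]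
      have h5 : 2 ≤ Real.exp (Y + 1 / 2) := by linarith [Real.add_one_le_exp (Y + 1 / 2)]
      rw [h3]
      nlinarith
    have h3 := (Nat.sub_one_lt_floor (Real.exp (Y + 1))).le
    linarith
  -- the exceptional function on the whole line
  set G : ℝ → ℝ := (Set.Icc (Y - 1 / 4) (Y + 1 / 4)).indicator Ef with hG
  have hG0 : ∀ u, 0 ≤ G u := fun u => Set.indicator_nonneg (fun x _ => hE0 x) u
  have hGi : Integrable G volume := by
    rw [hG, integrable_indicator_iff measurableSet_Icc]
    exact (intervalIntegrable_iff_integrableOn_Icc_of_le (by linarith)).1 hEi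
  have hGint : ∀ a b, IntervalIntegrable G volume a b := fun a b => hGi.intervalIntegrable
  have hGE : ∫ u in (Y - 1 / 4)..(Y + 1 / 4), G u = ∫ u in (Y - 1 / 4)..(Y + 1 / 4), Ef u := by
    refine intervalIntegral.integral_congr fun u hu => ?_
    rw [Set.uIcc_of_le (by linarith)] at hu
    exact Set.indicator_of_mem hu _
  set J : ℕ := ⌊1 / (2 * κ)⌋₊ - 1 with hJ
  have hJκ : (J : ℝ) * κ + κ ≤ 1 / 2 := by
    have h1 : (⌊1 / (2 * κ)⌋₊ : ℝ) ≤ 1 / (2 * κ) := Nat.floor_le (by positivity)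
    have h2 : 1 ≤ ⌊1 / (2 * κ)⌋₊ := by
      rw [Nat.one_le_floor_iff, le_div_iff₀ (by positivity)]
      linarith
    have h3 : (J : ℝ) = (⌊1 / (2 * κ)⌋₊ : ℝ) - 1 := by
      rw [hJ, Nat.cast_sub h2, Nat.cast_one]
    have h4 : (J : ℝ) + 1 ≤ 1 / (2 * κ) := by linarith
    have h5 := mul_le_mul_of_nonneg_right h4 hκ0.le
    have h6 : 1 / (2 * κ) * κ = 1 / 2 := by field_simp
    linarith
  obtain ⟨t, ht0, ht1, htG⟩ := exists_shift G hG0 hGint (Y - 1 / 4) (Y + 1 / 4) κ hκ0 J
    (by linarith)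
  refine ⟨t, ht0, ht1, ?_⟩
  set U : ℕ → ℝ := fun j => Y - 1 / 4 + t + j * κ with hU
  have hu2 : ∀ j ∈ range J, U j ≤ Y + 1 / 4 := by
    intro j hj
    rw [mem_range] at hj
    have h1 : (j : ℝ) + 1 ≤ J := by exact_mod_cast hj
    have h2 : U j = Y - 1 / 4 + t + j * κ := rfl
    rw [h2]
    nlinarith
  have hu1 : ∀ j : ℕ, Y - 1 / 4 ≤ U j := by
    intro j
    have h0 : 0 ≤ (j : ℝ) * κ := by positivity
    have h2 : U j = Y - 1 / 4 + t + j * κ := rfl
    rw [h2]
    linarith
  have htG' : ∑ j ∈ range J, G (U j) ≤ Real.exp (-(η₁ * Y)) := by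
    refine htG.trans ?_
    rw [hGE]
    refine (mul_le_mul_of_nonneg_left hEint (by positivity)).trans (le_of_eq ?_)
    field_simp
  have hYA : Y ^ (A + 4) ≤ Real.exp (η₁ / 3 * Y) := by
    refine (hY₂ Y hYY₂).trans (Real.exp_le_exp.2 ?_)
    exact mul_le_mul_of_nonneg_right (min_le_right _ _) (by linarith)
  have hYA' : Y ^ (A + 4) ≤ Real.exp (1 / 100 * Y) := by
    refine (hY₂ Y hYY₂).trans (Real.exp_le_exp.2 ?_)
    exact mul_le_mul_of_nonneg_right (min_le_left _ _) (by linarith)
  have hYpos : (0 : ℝ) < Y := by linarith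
  have hYA0 : (0 : ℝ) < Y ^ (A + 4) := by positivity
  have hF1 : (F : ℝ) ≤ Real.exp (Y / 100) := by
    refine (Nat.floor_le (Real.exp_pos _).le).trans (Real.exp_le_exp.2 ?_)
    nlinarith
  have hFF : F ≤ Fc Y := Nat.floor_le_floor (Real.exp_le_exp.2 (by nlinarith))
  -- a good window
  have hgood : ∀ j ∈ range J, G (U j) ≤ κ / Y ^ (A + 4) → ∀ a : ℕ → ℕ, (∀ q, (a q).Coprime q) →
      ∑ q ∈ Icc 1 F, |th (U j) κ q (a q) - th (U j) κ 1 0 / (Nat.totient q : ℝ)| ≤
        κ * Real.exp Y / Y ^ A := by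
    intro j hj hjG a ha
    have hb1 := hu1 j
    have hb2 := hu2 j hj
    set u : ℝ := U j with hu
    have hFu : (F : ℝ) ≤ Real.exp u := hF1.trans (Real.exp_le_exp.2 (by linarith))
    refine (disc3 hκ0.le (hMu _ hb2) hFu ha).trans ?_
    have hGF : GF M κ F u ≤ 2 * κ / Y ^ (A + 4) := by
      have h1 : GF M κ F u = ∑ f ∈ Icc 2 F, (1 / (Nat.totient f : ℝ)) *
          ∑ χ ∈ prm f (fun _ => True), ‖Wn χ κ u‖ := by
        unfold GF
        refine sum_congr rfl fun f _ => ?_
        congr 1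
        refine sum_congr rfl fun ψ _ => ?_
        rw [Wn_eq_WM ψ (hMu _ le_rfl) hb2]
      have h2 : G u = Ef u := Set.indicator_of_mem (Set.mem_Icc.2 ⟨hb1, hb2⟩) _
      rw [h1]
      refine (hEle u hb1 hb2).trans ?_
      rw [h2] at hjG
      have : 2 * κ / Y ^ (A + 4) = κ / Y ^ (A + 4) + κ / Y ^ (A + 4) := by ring
      rw [this]
      linarith
    have hphi : ∑ m ∈ Icc 1 F, 1 / (Nat.totient m : ℝ) ≤ 4 * Y ^ 2 := by
      refine (sum_le_sum_of_subset_of_nonneg (Icc_subset_Icc_right hFF)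
        fun _ _ _ => by positivity).trans (sum_inv_phi_le (by linarith))
    have h3 : Real.exp (1 / 4) ≤ 2 := by
      have h4 : Real.exp (1 / 4) ≤ 1 + 2 * (1 / 4) := exp_le_of_half (by norm_num) (by norm_num)
      linarith
    have hexpu : Real.exp u ≤ 2 * Real.exp Y := by
      calc Real.exp u ≤ Real.exp (Y + 1 / 4) := Real.exp_le_exp.2 hb2
        _ = Real.exp Y * Real.exp (1 / 4) := Real.exp_add _ _
        _ ≤ Real.exp Y * 2 := mul_le_mul_of_nonneg_left h3 (Real.exp_pos _).le
        _ = _ := by ring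
    have hmain : Real.exp u * (∑ m ∈ Icc 1 F, 1 / (Nat.totient m : ℝ)) * GF M κ F u ≤
        κ * Real.exp Y / Y ^ A / 2 := by
      calc Real.exp u * (∑ m ∈ Icc 1 F, 1 / (Nat.totient m : ℝ)) * GF M κ F u
          ≤ (2 * Real.exp Y) * (4 * Y ^ 2) * (2 * κ / Y ^ (A + 4)) := by
            refine mul_le_mul (mul_le_mul hexpu hphi (sum_nonneg fun _ _ => by positivity)
              (by positivity)) hGF (GF_nonneg _ _ _ _) (by positivity)
        _ = κ * Real.exp Y / Y ^ A * (16 / Y ^ 2) := by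
            have : Y ≠ 0 := hYpos.ne'
            field_simp
            ring
        _ ≤ κ * Real.exp Y / Y ^ A * (1 / 2) := by
            refine mul_le_mul_of_nonneg_left ?_ (by positivity)
            rw [div_le_div_iff₀ (by positivity) (by norm_num)]
            nlinarith
        _ = _ := by ring
    have herr : (F : ℝ) ^ 2 * (κ * thw M u κ + ppw M u κ) ≤ κ * Real.exp Y / Y ^ A / 2 := by
      have hF2 : (F : ℝ) ^ 2 ≤ Real.exp (Y / 50) := by
        refine (pow_le_pow_left₀ (Nat.cast_nonneg _) hF1 2).trans (le_of_eq ?_)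
        rw [← Real.exp_nat_mul]
        congr 1
        push_cast; ring
      have hu0 : 1 ≤ u := by linarith
      have hκh : κ ≤ 1 / 2 := by linarith
      have hth := thw_le (M := M) hκ0.le hκh hu0
      have hpp := ppw_le (M := M) hκ0.le hκh hu0
      have hu3 : u + 1 ≤ 2 * Y := by linarith
      -- powers of `Y`
      have hYe : Y ≤ 400 * Real.exp (Y / 400) := by
        have := Real.add_one_le_exp (Y / 400)
        linarith
      -- the lower bound for `κ`
      have hone : 1 ≤ κ * Real.exp (0.504 * Y) := by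
        have h5 := mul_le_mul_of_nonneg_right hκ504 (Real.exp_pos (0.504 * Y)).le
        rw [← Real.exp_add] at h5
        simpa using h5
      have hth2 : κ * thw M u κ ≤ κ * Real.exp (0.8 * Y) := by
        apply mul_le_mul_of_nonneg_left _ hκ0.le
        refine hth.trans ?_
        have h5 : 2 * κ * Real.exp u + 1 ≤ 5 * Real.exp (3 / 4 * Y) := by
          have h6 : κ * Real.exp Y ≤ Real.exp (3 / 4 * Y) := by
            calc κ * Real.exp Y ≤ Real.exp (-(Y / 4)) * Real.exp Y :=
                  mul_le_mul_of_nonneg_right hκ2 (Real.exp_pos _).le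
              _ = Real.exp (3 / 4 * Y) := by rw [← Real.exp_add]; congr 1; ring
          have h7 : 2 * κ * Real.exp u ≤ 2 * κ * (2 * Real.exp Y) :=
            mul_le_mul_of_nonneg_left hexpu (by positivity)
          have h8 : (1 : ℝ) ≤ Real.exp (3 / 4 * Y) := Real.one_le_exp (by linarith)
          nlinarith
        calc (2 * κ * Real.exp u + 1) * (u + 1) ≤ 5 * Real.exp (3 / 4 * Y) * (2 * Y) := by
              refine mul_le_mul h5 hu3 (by linarith) (by positivity)
          _ ≤ 5 * Real.exp (3 / 4 * Y) * (2 * (400 * Real.exp (Y / 400))) := by gcongr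
          _ = 4000 * (Real.exp (3 / 4 * Y) * Real.exp (Y / 400)) := by ring
          _ ≤ Real.exp (0.0475 * Y) * (Real.exp (3 / 4 * Y) * Real.exp (Y / 400)) := by
              refine mul_le_mul_of_nonneg_right ?_ (by positivity)
              have h9 : (4000 : ℝ) ≤ Real.exp (0.01 * Y) ^ 4 := by
                have h10 : (21 : ℝ) ≤ Real.exp (0.01 * Y) := by
                  have := Real.add_one_le_exp (0.01 * Y)
                  linarith
                calc (4000 : ℝ) ≤ 21 ^ 4 := by norm_num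
                  _ ≤ _ := pow_le_pow_left₀ (by norm_num) h10 4
              refine h9.trans ?_
              rw [← Real.exp_nat_mul]
              exact Real.exp_le_exp.2 (by push_cast; nlinarith)
          _ = Real.exp (0.8 * Y) := by
              rw [← Real.exp_add, ← Real.exp_add]; congr 1; ring
      have hpp2 : ppw M u κ ≤ κ * Real.exp (0.8 * Y) := by
        refine hpp.trans ?_
        have h5 : κ * Real.exp (u / 2) + 1 ≤ 3 * (κ * Real.exp (0.504 * Y + 1)) := by
          have h6 : Real.exp (u / 2) ≤ Real.exp (0.504 * Y + 1) :=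
            Real.exp_le_exp.2 (by linarith)
          have h7 : κ * Real.exp (u / 2) ≤ κ * Real.exp (0.504 * Y + 1) :=
            mul_le_mul_of_nonneg_left h6 hκ0.le
          have h8 : κ * Real.exp (0.504 * Y) ≤ κ * Real.exp (0.504 * Y + 1) :=
            mul_le_mul_of_nonneg_left (Real.exp_le_exp.2 (by linarith)) hκ0.le
          linarith
        have h6 : Real.exp 1 ≤ 3 := by linarith [Real.exp_one_lt_d9]
        calc 2 * (u + 1) * (κ * Real.exp (u / 2) + 1) * (u + 1)
            ≤ 2 * (2 * Y) * (3 * (κ * Real.exp (0.504 * Y + 1))) * (2 * Y) := by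
              refine mul_le_mul (mul_le_mul (by linarith) h5 (by positivity) (by linarith)) hu3
                (by linarith) (by positivity)
          _ = 24 * (Y * Y) * (κ * Real.exp (0.504 * Y + 1)) := by ring
          _ ≤ 24 * ((400 * Real.exp (Y / 400)) * (400 * Real.exp (Y / 400))) *
              (κ * (3 * Real.exp (0.504 * Y))) := by
              rw [Real.exp_add]
              have h7 : Real.exp (0.504 * Y) * Real.exp 1 ≤ 3 * Real.exp (0.504 * Y) := by
                rw [mul_comm]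
                exact mul_le_mul_of_nonneg_right h6 (Real.exp_pos _).le
              gcongr
          _ = 11520000 * (κ * (Real.exp (Y / 400) * Real.exp (Y / 400) * Real.exp (0.504 * Y))) := by
              ring
          _ ≤ Real.exp (0.291 * Y) *
              (κ * (Real.exp (Y / 400) * Real.exp (Y / 400) * Real.exp (0.504 * Y))) := by
              refine mul_le_mul_of_nonneg_right ?_ (by positivity)
              have h9 : (11520000 : ℝ) ≤ Real.exp (0.05 * Y) ^ 4 := by
                have h10 : (101 : ℝ) ≤ Real.exp (0.05 * Y) := by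
                  have := Real.add_one_le_exp (0.05 * Y)
                  linarith
                calc (11520000 : ℝ) ≤ 101 ^ 4 := by norm_num
                  _ ≤ _ := pow_le_pow_left₀ (by norm_num) h10 4
              refine h9.trans ?_
              rw [← Real.exp_nat_mul]
              exact Real.exp_le_exp.2 (by push_cast; nlinarith)
          _ = κ * (Real.exp (0.291 * Y) *
              (Real.exp (Y / 400) * Real.exp (Y / 400) * Real.exp (0.504 * Y))) := by ring
          _ = κ * Real.exp (0.8 * Y) := by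
              rw [← Real.exp_add, ← Real.exp_add, ← Real.exp_add]; congr 2; ring
      have hnn : 0 ≤ κ * thw M u κ + ppw M u κ := by
        refine add_nonneg (mul_nonneg hκ0.le (sum_nonneg fun n _ => ?_)) (sum_nonneg fun n _ => ?_)
        · split_ifs
          · exact Real.log_natCast_nonneg n
          · exact le_rfl
        · split_ifs
          · exact le_rfl
          · exact ArithmeticFunction.vonMangoldt_nonneg
      have h6 : Y ^ A ≤ Real.exp (1 / 100 * Y) := by
        refine le_trans ?_ hYA'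
        exact pow_le_pow_right₀ (by linarith) (by omega)
      rw [div_div, le_div_iff₀ (by positivity)]
      calc (F : ℝ) ^ 2 * (κ * thw M u κ + ppw M u κ) * (Y ^ A * 2)
          ≤ Real.exp (Y / 50) * (2 * (κ * Real.exp (0.8 * Y))) * (Real.exp (1 / 100 * Y) * 2) := by
            refine mul_le_mul (mul_le_mul hF2 (by linarith) hnn (Real.exp_pos _).le) (by gcongr)
              (by positivity) (by positivity)
        _ = 4 * κ * (Real.exp (Y / 50) * Real.exp (0.8 * Y) * Real.exp (1 / 100 * Y)) := by ring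
        _ ≤ Real.exp (0.17 * Y) * κ *
            (Real.exp (Y / 50) * Real.exp (0.8 * Y) * Real.exp (1 / 100 * Y)) := by
            gcongr
            have := Real.add_one_le_exp (0.17 * Y)
            linarith
        _ = κ * (Real.exp (0.17 * Y) *
            (Real.exp (Y / 50) * Real.exp (0.8 * Y) * Real.exp (1 / 100 * Y))) := by ring
        _ = κ * Real.exp Y := by
            rw [← Real.exp_add, ← Real.exp_add, ← Real.exp_add]; congr 2; ring
    linarith
  -- counting the bad windows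
  have hsub : (range J).filter (fun j : ℕ => ¬ ∀ a : ℕ → ℕ, (∀ q, (a q).Coprime q) →
      ∑ q ∈ Icc 1 F, |th (U j) κ q (a q) - th (U j) κ 1 0 / (Nat.totient q : ℝ)| ≤
        κ * Real.exp Y / Y ^ A) ⊆ (range J).filter (fun j => κ / Y ^ (A + 4) < G (U j)) := by
    intro j hj
    rw [mem_filter] at hj ⊢
    refine ⟨hj.1, ?_⟩
    by_contra hcon
    exact hj.2 (hgood j hj.1 (not_lt.1 hcon))
  have hcount : (((range J).filter (fun j => κ / Y ^ (A + 4) < G (U j))).card : ℝ) *
      (κ / Y ^ (A + 4)) ≤ Real.exp (-(η₁ * Y)) := by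
    calc (((range J).filter (fun j => κ / Y ^ (A + 4) < G (U j))).card : ℝ) * (κ / Y ^ (A + 4))
        = ∑ _j ∈ (range J).filter (fun j => κ / Y ^ (A + 4) < G (U j)), κ / Y ^ (A + 4) := by
          rw [sum_const, nsmul_eq_mul]
      _ ≤ ∑ j ∈ (range J).filter (fun j => κ / Y ^ (A + 4) < G (U j)), G (U j) :=
          sum_le_sum fun j hj => (mem_filter.1 hj).2.le
      _ ≤ ∑ j ∈ range J, G (U j) :=
          sum_le_sum_of_subset_of_nonneg (filter_subset _ _) fun j _ _ => hG0 _
      _ ≤ _ := htG'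
  have hc2 : (((range J).filter (fun j => κ / Y ^ (A + 4) < G (U j))).card : ℝ) ≤
      Real.exp (-(η * Y)) / κ := by
    rw [le_div_iff₀ hκ0]
    rw [← mul_div_assoc, div_le_iff₀ hYA0] at hcount
    refine hcount.trans ?_
    calc Real.exp (-(η₁ * Y)) * Y ^ (A + 4) ≤ Real.exp (-(η₁ * Y)) * Real.exp (η₁ / 3 * Y) :=
          mul_le_mul_of_nonneg_left hYA (Real.exp_pos _).le
      _ = Real.exp (-(η₁ * Y) + η₁ / 3 * Y) := (Real.exp_add _ _).symm
      _ ≤ Real.exp (-(η * Y)) := Real.exp_le_exp.2 (by nlinarith)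
  refine le_trans ?_ hc2
  have hcard := card_le_card hsub
  exact_mod_cast hcard

end Pool.Agent.L7h29.BP
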