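import Pool.Agent.L7h26.BW.Winq
import Pool.Agent.L7h18.BP.Stm

/-!
# Project BP: mean squares of the windows minus the near part (`S_PV2 → S_TUX → S_MSP → S_FRX → S_WN2`)
-/

set_option autoImplicit false

namespace Pool.Agent.L7h29.BP

open Finset Filter MeasureTheory
open Pool.Agent.H376R2.MR (ch DP FK w)
open Pool.Agent.Q240.KS (cf sp ty ed DY zY pic)
open Pool.Agent.Q95.KS (aY)
open Pool.Agent.L7h88.BW
open Pool.Agent.L7h18.BP
open Pool.Agent.L7h76.BW (mem_FK poly_exp)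
open Pool.Agent.L7h26.BW (win mem_win Wn_eq measurable_win intble_win_sq MS gk_nonneg gk_le1 gk_le2
  FK_mono blocks)

lemma continuous_NW {f : ℕ} (χ : DirichletCharacter ℂ f) (ε Y κ : ℝ) : Continuous (NW χ ε Y κ) := by
  unfold NW
  fun_prop

lemma intble_diff_sq (c : ℕ → ℂ) (κ : ℝ) (M : ℕ) {N : ℝ → ℂ} (hN : Continuous N) (a b : ℝ) :
    IntervalIntegrable (fun u : ℝ => ‖∑ n ∈ win M u κ, c n - N u‖ ^ 2) volume a b := by
  have h1 := intble_win_sq c κ M a b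
  have h2 : IntervalIntegrable (fun u : ℝ => ‖N u‖ ^ 2) volume a b :=
    Continuous.intervalIntegrable (by fun_prop) _ _
  refine ((h1.add h2).const_mul 2).mono_fun
    (((measurable_win c κ M).sub hN.measurable).norm.pow_const 2).aestronglyMeasurable ?_
  refine Filter.Eventually.of_forall fun u => ?_
  show ‖‖∑ n ∈ win M u κ, c n - N u‖ ^ 2‖ ≤ ‖2 * (‖∑ n ∈ win M u κ, c n‖ ^ 2 + ‖N u‖ ^ 2)‖
  rw [Real.norm_of_nonneg (by positivity), Real.norm_of_nonneg (by positivity)]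
  have h3 := norm_sub_le (∑ n ∈ win M u κ, c n) (N u)
  have h4 := pow_le_pow_left₀ (norm_nonneg _) h3 2
  nlinarith [sq_nonneg (‖∑ n ∈ win M u κ, c n‖ - ‖N u‖)]

open Classical in
/-- the coefficients -/
noncomputable def BX {f : ℕ} (χ : DirichletCharacter ℂ f) (ε Y : ℝ) (k : ℤ) : ℂ :=
  AX χ Y k - (if k ∈ FK (Kc Y + 1) then AN χ ε Y k else 0)

lemma psv2_app (hP : S_PV2) (hT : S_TUX) (ε : ℝ) {Y κ : ℝ} (hY : 2 ≤ Y) (hκ : 0 < κ)
    (hκ4 : κ ≤ 1 / 4) {q : ℕ} (χ : DirichletCharacter ℂ q) :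
    ∃ T : ℝ, HasSum (fun k : ℤ => gk κ k ^ 2 * ‖BX χ ε Y k‖ ^ 2) T ∧
      ∫ u in (Y - 1 / 4)..(Y + 1 / 4), ‖Wn χ κ u - NW χ ε Y κ u‖ ^ 2 ≤ 2 * Real.pi * T := by
  classical
  set M : ℕ := ⌊Real.exp (Y + 3 / 2)⌋₊ with hM
  set s : Finset ℕ := (Icc 1 M).filter (fun n : ℕ => |Real.log n - Y| ≤ 3 / 2) with hs
  set b : ℕ → ℂ := fun n => ((aY Y n : ℝ) : ℂ) * χ (n : ZMod q) with hb
  have hpi := Real.pi_gt_three
  have hb0 : ∀ n : ℕ, b n ≠ 0 → |Real.log n - Y| ≤ 3 / 2 := by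
    intro n hn
    by_contra hcon
    apply hn
    show ((aY Y n : ℝ) : ℂ) * χ (n : ZMod q) = 0
    rw [Pool.Agent.Q95.KS.aY_zero (not_le.1 hcon), Complex.ofReal_zero, zero_mul]
  have h1 := hP s b (Y - 3) κ (FK (Kc Y + 1)) (fun k => AN χ ε Y k) hκ (by linarith) (by
    intro n hn
    rw [hs, mem_filter, mem_Icc, abs_le] at hn
    exact ⟨hn.1.1, by linarith [hn.2.1], by linarith [hn.2.2]⟩)
  have h2 : ∀ k : ℤ, DP s b k = AX χ Y k := by
    intro k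
    rw [hT]
    unfold DP
    rw [hs]
    refine (sum_filter_of_ne fun n _ hn => ?_).trans (sum_congr rfl fun n _ => rfl)
    exact hb0 n (left_ne_zero_of_mul hn)
  have hNW : ∀ u : ℝ, ∑ k ∈ FK (Kc Y + 1), gz κ k * AN χ ε Y k *
      Complex.exp (((k : ℝ) * u : ℝ) * Complex.I) = NW χ ε Y κ u := fun u => rfl
  simp only [h2, hNW] at h1
  refine ⟨_, h1, ?_⟩
  have h3 : ∀ u : ℝ, ∑ n ∈ s.filter (fun n : ℕ => u < Real.log n ∧ Real.log n ≤ u + κ), b n =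
      ∑ n ∈ win M u κ, b n := by
    intro u
    have e : s.filter (fun n : ℕ => u < Real.log n ∧ Real.log n ≤ u + κ) =
        (win M u κ).filter (fun n : ℕ => |Real.log n - Y| ≤ 3 / 2) := by
      unfold win
      rw [hs, filter_filter, filter_filter]
      refine filter_congr fun n _ => ?_
      exact and_comm
    rw [e]
    exact sum_filter_of_ne fun n _ hn => hb0 n hn
  simp only [h3]
  have e1 : 2 * Real.pi * (1 / (2 * Real.pi) * ∫ u in (Y - 3)..(Y - 3 + 2 * Real.pi),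
      ‖∑ n ∈ win M u κ, b n - NW χ ε Y κ u‖ ^ 2) = ∫ u in (Y - 3)..(Y - 3 + 2 * Real.pi),
      ‖∑ n ∈ win M u κ, b n - NW χ ε Y κ u‖ ^ 2 := by
    field_simp
  rw [e1]
  have h4 : ∫ u in (Y - 1 / 4)..(Y + 1 / 4), ‖Wn χ κ u - NW χ ε Y κ u‖ ^ 2 =
      ∫ u in (Y - 1 / 4)..(Y + 1 / 4), ‖∑ n ∈ win M u κ, b n - NW χ ε Y κ u‖ ^ 2 := by
    refine intervalIntegral.integral_congr fun u hu => ?_
    rw [Set.uIcc_of_le (by linarith)] at hu
    show ‖Wn χ κ u - NW χ ε Y κ u‖ ^ 2 = ‖∑ n ∈ win M u κ, b n - NW χ ε Y κ u‖ ^ 2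
    have hMu : Real.exp (u + κ) ≤ M := by
      have e2 : Real.exp (u + κ) ≤ Real.exp (Y + 1 / 2) := Real.exp_le_exp.2 (by linarith [hu.2])
      have e3 : Real.exp (Y + 3 / 2) = Real.exp (Y + 1 / 2) * Real.exp 1 := by
        rw [← Real.exp_add]; congr 1; ring
      have e4 : 2 ≤ Real.exp 1 := by linarith [Real.add_one_le_exp (1 : ℝ)]
      have e5 : 2 ≤ Real.exp (Y + 1 / 2) := by linarith [Real.add_one_le_exp (Y + 1 / 2)]
      have e6 : Real.exp (Y + 3 / 2) - 1 ≤ (M : ℝ) := (Nat.sub_one_lt_floor _).le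
      rw [e3] at e6
      nlinarith
    rw [Wn_eq χ hMu]
    congr 3
    refine sum_congr rfl fun n hn => ?_
    rw [mem_win] at hn
    have e7 : aY Y n = ArithmeticFunction.vonMangoldt n / n :=
      Pool.Agent.Q95.KS.aY_eq Pool.Agent.Q257.KS.hb hY hn.1.1 (by
        rw [abs_le]
        constructor
        · linarith [hn.2.1, hu.1]
        · linarith [hn.2.2, hu.2])
    show _ = ((aY Y n : ℝ) : ℂ) * χ (n : ZMod q)
    rw [e7]
  rw [h4]
  refine intervalIntegral.integral_mono_interval (by linarith) (by linarith) (by linarith) ?_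
    (intble_diff_sq b κ M (continuous_NW χ ε Y κ) _ _)
  exact Filter.Eventually.of_forall fun u => by positivity

/-- **S_WN2.** -/
theorem s_WN2 (hP : S_PV2) (hT : S_TUX) (hM : S_MSP) (hQ : S_FRX) : S_WN2 := by
  classical
  intro ε hε
  obtain ⟨η₁, Y₁, hη₁, hY₁⟩ := hQ ε hε
  obtain ⟨C, Y₂, hY₂⟩ := MS hM
  obtain ⟨Y₃, hY₃⟩ := poly_exp 80 C (show (0 : ℝ) < 0.001 by norm_num)
  refine ⟨min (η₁ / 2) 0.001, max (max Y₁ Y₂) (max Y₃ 2), by positivity, fun Y hY κ hκ hκ4 => ?_⟩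
  set η : ℝ := min (η₁ / 2) 0.001 with hη
  have hη0 : 0 < η := by positivity
  have hη1 : η ≤ η₁ / 2 := min_le_left _ _
  have hη2 : η ≤ 0.001 := min_le_right _ _
  have hYY₁ : Y₁ ≤ Y := (le_max_left _ _).trans ((le_max_left _ _).trans hY)
  have hYY₂ : Y₂ ≤ Y := (le_max_right _ _).trans ((le_max_left _ _).trans hY)
  have hYY₃ : Y₃ ≤ Y := (le_max_left _ _).trans ((le_max_right _ _).trans hY)
  have hY2 : 2 ≤ Y := (le_max_right _ _).trans ((le_max_right _ _).trans hY)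
  have hκ0 : 0 < κ := (Real.exp_pos _).trans_le hκ
  have hY0 : (0 : ℝ) < Y := by linarith
  have hpi3 := Real.pi_gt_three
  have hpi4 := Real.pi_lt_d2
  set K1 : ℕ := Kc Y + 1 with hK1
  have hK1e : Real.exp (0.505 * Y) ≤ K1 := by
    have := (Nat.lt_floor_add_one (Real.exp (0.505 * Y))).le
    rw [hK1]
    push_cast
    exact this
  have hK10 : (0 : ℝ) < K1 := (Real.exp_pos _).trans_le hK1e
  -- Parseval for all characters
  have hTT : ∀ (f : ℕ) (χ : DirichletCharacter ℂ f), ∃ T : ℝ,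
      HasSum (fun k : ℤ => gk κ k ^ 2 * ‖BX χ ε Y k‖ ^ 2) T ∧
      ∫ u in (Y - 1 / 4)..(Y + 1 / 4), ‖Wn χ κ u - NW χ ε Y κ u‖ ^ 2 ≤ 2 * Real.pi * T :=
    fun f χ => psv2_app hP hT ε hY2 hκ0 hκ4 χ
  choose T hT1 hT2 using hTT
  set S : ℤ → ℝ := fun k => ∑ f ∈ Icc 2 (Fc Y), ∑ χ ∈ prm f (fun _ => True), ‖BX χ ε Y k‖ ^ 2 with hS
  set S' : ℤ → ℝ := fun k => ∑ f ∈ Icc 2 (Fc Y), ∑ χ ∈ prm f (fun _ => True), ‖AX χ Y k‖ ^ 2 with hS'
  have hS0 : ∀ k, 0 ≤ S k := fun k => sum_nonneg fun _ _ => sum_nonneg fun _ _ => by positivity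
  have hS0' : ∀ k, 0 ≤ S' k := fun k => sum_nonneg fun _ _ => sum_nonneg fun _ _ => by positivity
  have hSS : ∀ k, k ∉ FK K1 → S k = S' k := by
    intro k hk
    show ∑ f ∈ Icc 2 (Fc Y), ∑ χ ∈ prm f (fun _ => True), ‖BX χ ε Y k‖ ^ 2 =
      ∑ f ∈ Icc 2 (Fc Y), ∑ χ ∈ prm f (fun _ => True), ‖AX χ Y k‖ ^ 2
    refine sum_congr rfl fun f _ => sum_congr rfl fun χ _ => ?_
    unfold BX
    rw [if_neg hk, sub_zero]
  have hsum : HasSum (fun k : ℤ => gk κ k ^ 2 * S k)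
      (∑ f ∈ Icc 2 (Fc Y), ∑ χ ∈ prm f (fun _ => True), T f χ) := by
    have h1 : HasSum (fun k : ℤ => ∑ f ∈ Icc 2 (Fc Y), ∑ χ ∈ prm f (fun _ => True),
        gk κ k ^ 2 * ‖BX χ ε Y k‖ ^ 2) (∑ f ∈ Icc 2 (Fc Y), ∑ χ ∈ prm f (fun _ => True), T f χ) :=
      hasSum_sum fun f _ => hasSum_sum fun χ _ => hT1 f χ
    have h2 : (fun k : ℤ => ∑ f ∈ Icc 2 (Fc Y), ∑ χ ∈ prm f (fun _ => True),
        gk κ k ^ 2 * ‖BX χ ε Y k‖ ^ 2) = fun k : ℤ => gk κ k ^ 2 * S k := by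
      funext k
      rw [hS, mul_sum]
      exact sum_congr rfl fun f _ => (mul_sum _ _ _).symm
    rw [h2] at h1
    exact h1
  have hSK : ∀ K : ℕ, ∑ k ∈ FK K, S' k =
      ∑ f ∈ Icc 2 (Fc Y), ∑ χ ∈ prm f (fun _ => True), ∑ k ∈ FK K, ‖AX χ Y k‖ ^ 2 := by
    intro K
    rw [hS']
    refine sum_comm.trans (sum_congr rfl fun f _ => ?_)
    exact sum_comm
  have hSN : ∑ k ∈ FK K1, S k =
      ∑ f ∈ Icc 2 (Fc Y), ∑ χ ∈ prm f (fun _ => True), ∑ k ∈ FK K1,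
        ‖AX χ Y k - AN χ ε Y k‖ ^ 2 := by
    rw [hS]
    refine sum_comm.trans (sum_congr rfl fun f _ => ?_)
    refine sum_comm.trans (sum_congr rfl fun χ _ => sum_congr rfl fun k hk => ?_)
    unfold BX
    rw [if_pos hk]
  -- the low frequencies
  have hlow : ∑ k ∈ FK K1, gk κ k ^ 2 * S k ≤ (κ / (2 * Real.pi)) ^ 2 * Real.exp (-(η₁ * Y)) := by
    have h1 : ∑ k ∈ FK K1, gk κ k ^ 2 * S k ≤ ∑ k ∈ FK K1, (κ / (2 * Real.pi)) ^ 2 * S k := by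
      refine sum_le_sum fun k _ => mul_le_mul_of_nonneg_right ?_ (hS0 k)
      exact pow_le_pow_left₀ (gk_nonneg hκ0.le k) (gk_le1 hκ0.le k) 2
    refine h1.trans ?_
    rw [← mul_sum, hSN]
    exact mul_le_mul_of_nonneg_left (hY₁ Y hYY₁) (by positivity)
  -- the high frequencies
  have hexp1 : 1 / (K1 : ℝ) ^ 2 ≤ Real.exp (-(1.01 * Y)) := by
    rw [one_div, Real.exp_neg]
    refine inv_anti₀ (Real.exp_pos _) ?_
    calc Real.exp (1.01 * Y) = Real.exp (0.505 * Y) ^ 2 := by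
          rw [← Real.exp_nat_mul]; congr 1; push_cast; ring
      _ ≤ (K1 : ℝ) ^ 2 := pow_le_pow_left₀ (Real.exp_pos _).le hK1e 2
  have hexp2 : Real.exp (-(0.98 * Y)) / K1 ≤ Real.exp (-(1.01 * Y)) := by
    rw [div_le_iff₀ hK10]
    calc Real.exp (-(0.98 * Y)) ≤ Real.exp (-(1.01 * Y) + 0.505 * Y) :=
          Real.exp_le_exp.2 (by linarith)
      _ = Real.exp (-(1.01 * Y)) * Real.exp (0.505 * Y) := Real.exp_add _ _
      _ ≤ _ := mul_le_mul_of_nonneg_left hK1e (Real.exp_pos _).le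
  have hblock : ∀ j : ℕ, ∑ k ∈ FK (2 ^ (j + 1) * K1) \ FK (2 ^ j * K1), gk κ k ^ 2 * S k ≤
      (3 * Y ^ C * Real.exp (-(1.01 * Y))) * (1 / 2) ^ j := by
    intro j
    have hj0 : (0 : ℝ) < 2 ^ j := by positivity
    have hj1 : FK K1 ⊆ FK (2 ^ j * K1) := FK_mono (Nat.le_mul_of_pos_left _ (by positivity))
    have h1 : ∀ k ∈ FK (2 ^ (j + 1) * K1) \ FK (2 ^ j * K1), gk κ k ^ 2 * S k ≤
        (1 / (2 ^ j * (K1 : ℝ)) ^ 2) * S' k := by
      intro k hk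
      have hk' : k ∉ FK K1 := fun h => (Finset.mem_sdiff.1 hk).2 (hj1 h)
      rw [hSS k hk']
      rw [Finset.mem_sdiff, mem_FK, mem_FK, not_lt] at hk
      have h2 : (2 : ℝ) ^ j * K1 ≤ |(k : ℝ)| := by exact_mod_cast hk.2
      have h3 : k ≠ 0 := by
        rintro rfl
        simp only [Int.cast_zero, abs_zero] at h2
        have : 0 < (2 : ℝ) ^ j * K1 := by positivity
        linarith
      have h4 : gk κ k ≤ 1 / (2 ^ j * (K1 : ℝ)) :=
        (gk_le2 h3).trans (one_div_le_one_div_of_le (by positivity) h2)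
      refine mul_le_mul_of_nonneg_right ?_ (hS0' k)
      calc gk κ k ^ 2 ≤ (1 / (2 ^ j * (K1 : ℝ))) ^ 2 := pow_le_pow_left₀ (gk_nonneg hκ0.le k) h4 2
        _ = _ := by rw [div_pow, one_pow]
    refine (sum_le_sum h1).trans ?_
    rw [← mul_sum]
    have h2 : ∑ k ∈ FK (2 ^ (j + 1) * K1) \ FK (2 ^ j * K1), S' k ≤
        Y ^ C * (1 + Real.exp (-(0.98 * Y)) * ((2 ^ (j + 1) * K1 : ℕ) : ℝ)) := by
      refine (sum_le_sum_of_subset_of_nonneg sdiff_subset fun k _ _ => hS0' k).trans ?_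
      rw [hSK]
      refine hY₂ Y hYY₂ _ ?_ (fun f => fun _ => True)
      exact Nat.mul_pos (by positivity) (Nat.succ_pos _)
    have h3 : (1 / (2 ^ j * (K1 : ℝ)) ^ 2) * (1 + Real.exp (-(0.98 * Y)) * ((2 ^ (j + 1) * K1 : ℕ) : ℝ)) =
        (1 / (K1 : ℝ) ^ 2) * (1 / 2) ^ j * (1 / 2) ^ j +
          2 * (Real.exp (-(0.98 * Y)) / K1) * (1 / 2) ^ j := by
      push_cast
      rw [one_div_pow]
      field_simp
      ring
    calc (1 / (2 ^ j * (K1 : ℝ)) ^ 2) * ∑ k ∈ FK (2 ^ (j + 1) * K1) \ FK (2 ^ j * K1), S' k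
        ≤ (1 / (2 ^ j * (K1 : ℝ)) ^ 2) *
          (Y ^ C * (1 + Real.exp (-(0.98 * Y)) * ((2 ^ (j + 1) * K1 : ℕ) : ℝ))) :=
          mul_le_mul_of_nonneg_left h2 (by positivity)
      _ = Y ^ C * ((1 / (2 ^ j * (K1 : ℝ)) ^ 2) *
          (1 + Real.exp (-(0.98 * Y)) * ((2 ^ (j + 1) * K1 : ℕ) : ℝ))) := by ring
      _ = Y ^ C * ((1 / (K1 : ℝ) ^ 2) * (1 / 2) ^ j * (1 / 2) ^ j +
          2 * (Real.exp (-(0.98 * Y)) / K1) * (1 / 2) ^ j) := by rw [h3]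
      _ ≤ Y ^ C * (Real.exp (-(1.01 * Y)) * (1 / 2) ^ j * 1 +
          2 * Real.exp (-(1.01 * Y)) * (1 / 2) ^ j) := by
          have h4 : (1 / 2 : ℝ) ^ j ≤ 1 := pow_le_one₀ (by norm_num) (by norm_num)
          gcongr
      _ = _ := by ring
  have htot : ∑ f ∈ Icc 2 (Fc Y), ∑ χ ∈ prm f (fun _ => True), T f χ ≤
      (κ / (2 * Real.pi)) ^ 2 * Real.exp (-(η₁ * Y)) + 6 * Y ^ C * Real.exp (-(1.01 * Y)) := by
    refine hasSum_le_of_sum_le hsum fun s => ?_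
    obtain ⟨J, hJ⟩ : ∃ J : ℕ, s ⊆ FK (2 ^ J * K1) := by
      obtain ⟨J, hJ⟩ : ∃ J : ℕ, ∀ k ∈ s, |k| < J := by
        refine ⟨(s.sup fun k => k.natAbs) + 1, fun k hk => ?_⟩
        have h1 : k.natAbs ≤ s.sup fun k => k.natAbs := Finset.le_sup (f := fun k : ℤ => k.natAbs) hk
        rw [Int.abs_eq_natAbs]
        exact_mod_cast Nat.lt_succ_of_le h1
      refine ⟨J, fun k hk => ?_⟩
      rw [mem_FK]
      refine (hJ k hk).trans_le ?_
      have h1 : J ≤ 2 ^ J * K1 := by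
        have := (Nat.lt_two_pow_self (n := J)).le
        have h2 : 1 ≤ K1 := Nat.succ_pos _
        nlinarith
      exact_mod_cast h1
    have h1 : ∑ k ∈ s, gk κ k ^ 2 * S k ≤ ∑ k ∈ FK (2 ^ J * K1), gk κ k ^ 2 * S k :=
      sum_le_sum_of_subset_of_nonneg hJ fun k _ _ => mul_nonneg (by positivity) (hS0 k)
    refine h1.trans ((blocks _ K1 _ hblock J).trans ?_)
    refine add_le_add hlow ?_
    have h2 : ∑ j ∈ range J, (1 / 2 : ℝ) ^ j ≤ 2 := sum_geometric_two_le J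
    calc 3 * Y ^ C * Real.exp (-(1.01 * Y)) * ∑ j ∈ range J, (1 / 2 : ℝ) ^ j
        ≤ 3 * Y ^ C * Real.exp (-(1.01 * Y)) * 2 := mul_le_mul_of_nonneg_left h2 (by positivity)
      _ = _ := by ring
  -- the end
  have hfin : ∑ f ∈ Icc 2 (Fc Y), ∑ χ ∈ prm f (fun _ => True),
      ∫ u in (Y - 1 / 4)..(Y + 1 / 4), ‖Wn χ κ u - NW χ ε Y κ u‖ ^ 2 ≤
      2 * Real.pi * ∑ f ∈ Icc 2 (Fc Y), ∑ χ ∈ prm f (fun _ => True), T f χ := by
    rw [mul_sum]
    refine sum_le_sum fun f _ => ?_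
    rw [mul_sum]
    exact sum_le_sum fun χ _ => hT2 f χ
  refine hfin.trans ((mul_le_mul_of_nonneg_left htot (by positivity)).trans ?_)
  have hηY : Real.exp (-(η₁ * Y)) ≤ Real.exp (-(η * Y)) :=
    Real.exp_le_exp.2 (by nlinarith)
  have hA : 2 * Real.pi * ((κ / (2 * Real.pi)) ^ 2 * Real.exp (-(η₁ * Y))) ≤
      κ ^ 2 * Real.exp (-(η * Y)) / 2 := by
    have e1 : 2 * Real.pi * ((κ / (2 * Real.pi)) ^ 2 * Real.exp (-(η₁ * Y))) =
        κ ^ 2 * Real.exp (-(η₁ * Y)) * (1 / (2 * Real.pi)) := by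
      field_simp
    have e2 : 1 / (2 * Real.pi) ≤ 1 / 2 := by
      refine one_div_le_one_div_of_le (by norm_num) ?_
      linarith
    rw [e1]
    calc κ ^ 2 * Real.exp (-(η₁ * Y)) * (1 / (2 * Real.pi))
        ≤ κ ^ 2 * Real.exp (-(η * Y)) * (1 / 2) := by gcongr
      _ = _ := by ring
  have hB : 2 * Real.pi * (6 * Y ^ C * Real.exp (-(1.01 * Y))) ≤
      κ ^ 2 * Real.exp (-(η * Y)) / 2 := by
    have h1 := hY₃ Y hYY₃
    have h2 : Real.exp (-(1.008 * Y)) ≤ κ ^ 2 := by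
      calc Real.exp (-(1.008 * Y)) = Real.exp (-(0.504 * Y)) ^ 2 := by
            rw [← Real.exp_nat_mul]; congr 1; push_cast; ring
        _ ≤ κ ^ 2 := pow_le_pow_left₀ (Real.exp_pos _).le hκ 2
    rw [le_div_iff₀ (by norm_num)]
    calc 2 * Real.pi * (6 * Y ^ C * Real.exp (-(1.01 * Y))) * 2
        = (24 * Real.pi) * Y ^ C * Real.exp (-(1.01 * Y)) := by ring
      _ ≤ 80 * Y ^ C * Real.exp (-(1.01 * Y)) := by
          gcongr
          linarith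
      _ ≤ Real.exp (0.001 * Y) * Real.exp (-(1.01 * Y)) :=
          mul_le_mul_of_nonneg_right h1 (Real.exp_pos _).le
      _ = Real.exp (-(1.008 * Y)) * Real.exp (-(0.001 * Y)) := by
          rw [← Real.exp_add, ← Real.exp_add]; congr 1; ring
      _ ≤ κ ^ 2 * Real.exp (-(η * Y)) := by
          refine mul_le_mul h2 (Real.exp_le_exp.2 (by nlinarith)) (Real.exp_pos _).le (by positivity)
  rw [mul_add]
  linarith

end Pool.Agent.L7h29.BP
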