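import Pool.Agent.L7h18.BP.Gen

/-!
# Project BP (helper18): Bombieri-Vinogradov in all intervals that avoid a small set (`S_BVP → S_POOR → S_BVJ`)
-/

set_option autoImplicit false

namespace Pool.Agent.L7h29.BP

open Finset Filter MeasureTheory
open Pool.Agent.L7h88.BW (th grid S_POOR)
open Pool.Agent.L7h18.BP

lemma bvj_mem {u κ : ℝ} {q a p : ℕ} :
    p ∈ (Icc 1 ⌊Real.exp (u + κ)⌋₊).filter (fun p : ℕ => p.Prime ∧ u < Real.log p ∧ p ≡ a [MOD q]) ↔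
    p.Prime ∧ p ≡ a [MOD q] ∧ u < Real.log p ∧ Real.log p ≤ u + κ := by
  rw [mem_filter, mem_Icc]
  constructor
  · rintro ⟨⟨h1, h2⟩, h3, h4, h5⟩
    have h0 : (0 : ℝ) < p := by exact_mod_cast h1
    exact ⟨h3, h5, h4, (Real.log_le_iff_le_exp h0).2 ((Nat.le_floor_iff (Real.exp_pos _).le).1 h2)⟩
  · rintro ⟨h3, h5, h4, h6⟩
    have h0 : (0 : ℝ) < p := by exact_mod_cast h3.pos
    exact ⟨⟨h3.pos, (Nat.le_floor_iff (Real.exp_pos _).le).2 ((Real.log_le_iff_le_exp h0).1 h6)⟩, h3, h4, h5⟩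

/-- the interval is the union of the windows of the grid inside it and two short intervals -/
lemma bvj_parts {x y q a M : ℕ} {s κ : ℝ} (hx : 1 ≤ x) (hxy : x < y) (hκ : 0 < κ) (hκ' : κ ≤ 1 / 2)
    (hs : s ≤ Real.log x) (hM : Real.log y ≤ s + M * κ) (G : Finset ℕ)
    (hG : G = (range M).filter (fun j : ℕ => Real.log x ≤ s + j * κ ∧
      s + j * κ + κ ≤ Real.log ((y : ℝ) - 1 / 2))) :
    ∑ j ∈ G, th (s + (j : ℕ) * κ) κ q a ≤ thI x y q a ∧
    thI x y q a ≤ ∑ j ∈ G, th (s + (j : ℕ) * κ) κ q a + (3 * κ * y + 1 / 2) * Real.log y := by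
  classical
  have hx0 : (0 : ℝ) < x := by exact_mod_cast hx
  have hxy' : (x : ℝ) + 1 ≤ y := by exact_mod_cast hxy
  have hy0 : (0 : ℝ) < y := by linarith
  have hy1 : (1 : ℝ) < y := by
    have : (1 : ℝ) ≤ x := by exact_mod_cast hx
    linarith
  have hlogy : 0 < Real.log y := Real.log_pos hy1
  set W : ℕ → Finset ℕ := fun j => (Icc 1 ⌊Real.exp (s + j * κ + κ)⌋₊).filter
    (fun p : ℕ => p.Prime ∧ s + j * κ < Real.log p ∧ p ≡ a [MOD q]) with hW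
  set F : Finset ℕ := (Ioo x y).filter (fun p => p.Prime ∧ p ≡ a [MOD q]) with hF
  have hWm : ∀ (j p : ℕ), p ∈ W j ↔ p.Prime ∧ p ≡ a [MOD q] ∧ s + j * κ < Real.log p ∧
      Real.log p ≤ s + j * κ + κ := fun j p => bvj_mem
  have hdis : (G : Set ℕ).PairwiseDisjoint W := by
    intro i _ j _ hij
    rw [Function.onFun, disjoint_left]
    intro p hp hp'
    rw [hWm] at hp hp'
    rcases lt_or_gt_of_ne hij with h | h
    · have h3 : (i : ℝ) + 1 ≤ j := by exact_mod_cast h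
      have h4 := mul_le_mul_of_nonneg_right h3 hκ.le
      linarith [hp.2.2.2, hp'.2.2.1]
    · have h3 : (j : ℝ) + 1 ≤ i := by exact_mod_cast h
      have h4 := mul_le_mul_of_nonneg_right h3 hκ.le
      linarith [hp'.2.2.2, hp.2.2.1]
  have hsum : ∑ j ∈ G, th (s + (j : ℕ) * κ) κ q a = ∑ p ∈ G.biUnion W, Real.log p := by
    rw [sum_biUnion hdis]; rfl
  have hsub : G.biUnion W ⊆ F := by
    intro p hp
    rw [mem_biUnion] at hp
    obtain ⟨j, hj, hp⟩ := hp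
    rw [hWm] at hp
    obtain ⟨h1, h2, h3, h4⟩ := hp
    rw [hG, mem_filter] at hj
    have hp0 : (0 : ℝ) < p := by exact_mod_cast h1.pos
    have h5 : (x : ℝ) < p := (Real.log_lt_log_iff hx0 hp0).1 (by linarith [hj.2.1])
    have h6 : (p : ℝ) ≤ (y : ℝ) - 1 / 2 := (Real.log_le_log_iff hp0 (by linarith)).1 (by linarith [hj.2.2])
    have h7 : (p : ℝ) < y := by linarith
    rw [hF, mem_filter, mem_Ioo]
    exact ⟨⟨by exact_mod_cast h5, by exact_mod_cast h7⟩, h1, h2⟩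
  have hsplit : thI x y q a = ∑ p ∈ F \ G.biUnion W, Real.log p + ∑ p ∈ G.biUnion W, Real.log p :=
    (sum_sdiff hsub).symm
  have hnn : 0 ≤ ∑ p ∈ F \ G.biUnion W, Real.log p :=
    sum_nonneg fun p _ => Real.log_natCast_nonneg p
  have hE : F \ G.biUnion W ⊆ Ioc x ⌊(x : ℝ) * Real.exp κ⌋₊ ∪
      Ioo ⌊((y : ℝ) - 1 / 2) * Real.exp (-κ)⌋₊ y := by
    intro p hp
    rw [Finset.mem_sdiff, hF, mem_filter, mem_Ioo] at hp
    obtain ⟨⟨⟨h1, h2⟩, h3, h4⟩, h5⟩ := hp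
    have hp0 : (0 : ℝ) < p := by exact_mod_cast h3.pos
    have h1' : (x : ℝ) < p := by exact_mod_cast h1
    have h2' : (p : ℝ) < y := by exact_mod_cast h2
    have hlx : Real.log x < Real.log p := Real.log_lt_log hx0 h1'
    have hly : Real.log p < Real.log y := Real.log_lt_log hp0 h2'
    have hr0 : 0 < (Real.log p - s) / κ := div_pos (by linarith) hκ
    obtain ⟨j, hj⟩ : ∃ j, ⌈(Real.log p - s) / κ⌉₊ = j + 1 :=
      ⟨⌈(Real.log p - s) / κ⌉₊ - 1, by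
        have := Nat.ceil_pos.2 hr0
        omega⟩
    have g1 : (Real.log p - s) / κ ≤ ((j + 1 : ℕ) : ℝ) := by rw [← hj]; exact Nat.le_ceil _
    have g2 : ((j + 1 : ℕ) : ℝ) < (Real.log p - s) / κ + 1 := by rw [← hj]; exact Nat.ceil_lt_add_one hr0.le
    push_cast at g1 g2
    rw [div_le_iff₀ hκ] at g1
    have g3 : (j : ℝ) < (Real.log p - s) / κ := by linarith
    rw [lt_div_iff₀ hκ] at g3
    have g4 : j < M := by
      have : (j : ℝ) * κ < M * κ := by linarith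
      have := lt_of_mul_lt_mul_right this hκ.le
      exact_mod_cast this
    have g5 : j ∉ G := fun hjG => h5 (mem_biUnion.2 ⟨j, hjG, (hWm j p).2 ⟨h3, h4, by linarith, by linarith⟩⟩)
    rw [hG, mem_filter, mem_range, not_and, not_and_or, not_le, not_le] at g5
    rw [mem_union]
    rcases g5 g4 with g6 | g6
    · left
      rw [mem_Ioc]
      refine ⟨h1, Nat.le_floor ?_⟩
      have h7 : Real.log p ≤ Real.log x + κ := by linarith
      rw [Real.log_le_iff_le_exp hp0, Real.exp_add, Real.exp_log hx0] at h7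
      exact h7
    · right
      rw [mem_Ioo]
      refine ⟨?_, h2⟩
      have hy2 : 0 < (y : ℝ) - 1 / 2 := by linarith
      rw [Nat.floor_lt (by positivity)]
      have h7 : Real.log ((y : ℝ) - 1 / 2) + -κ < Real.log p := by linarith
      rw [Real.lt_log_iff_exp_lt hp0, Real.exp_add, Real.exp_log hy2] at h7
      exact h7
  have hc1 : ((Ioc x ⌊(x : ℝ) * Real.exp κ⌋₊).card : ℝ) ≤ 2 * κ * y := by
    rw [Nat.card_Ioc]
    have h1 : x ≤ ⌊(x : ℝ) * Real.exp κ⌋₊ := by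
      apply Nat.le_floor
      have := Real.one_le_exp hκ.le
      nlinarith
    rw [Nat.cast_sub h1]
    have h2 : (⌊(x : ℝ) * Real.exp κ⌋₊ : ℝ) ≤ x * Real.exp κ := Nat.floor_le (by positivity)
    have h3 : Real.exp κ ≤ 1 + 2 * κ := by
      have h1 : 1 - κ ≤ Real.exp (-κ) := by linarith [Real.add_one_le_exp (-κ)]
      have h2 : Real.exp κ * Real.exp (-κ) = 1 := by rw [← Real.exp_add]; simp
      have h3 : 0 < Real.exp κ := Real.exp_pos κ
      have h4 : Real.exp κ * (1 - κ) ≤ 1 := (mul_le_mul_of_nonneg_left h1 h3.le).trans h2.le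
      by_contra hcon
      push Not at hcon
      have h5 : (1 + 2 * κ) * (1 - κ) < Real.exp κ * (1 - κ) := mul_lt_mul_of_pos_right hcon (by linarith)
      nlinarith
    have h4 : (x : ℝ) * Real.exp κ ≤ x * (1 + 2 * κ) := mul_le_mul_of_nonneg_left h3 hx0.le
    have h5 : 2 * κ * (x : ℝ) ≤ 2 * κ * y := mul_le_mul_of_nonneg_left (by linarith) (by linarith)
    linarith
  have hc2 : ((Ioo ⌊((y : ℝ) - 1 / 2) * Real.exp (-κ)⌋₊ y).card : ℝ) ≤ κ * y + 1 / 2 := by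
    rw [Nat.card_Ioo]
    have hy2 : 0 < (y : ℝ) - 1 / 2 := by linarith
    have h0 : Real.exp (-κ) ≤ 1 := Real.exp_le_one_iff.2 (by linarith)
    have h1 : ((y : ℝ) - 1 / 2) * Real.exp (-κ) ≤ (y : ℝ) - 1 / 2 := by nlinarith
    have h2 : ⌊((y : ℝ) - 1 / 2) * Real.exp (-κ)⌋₊ < y := by
      rw [Nat.floor_lt (by positivity)]
      linarith
    have h3 : ((y - ⌊((y : ℝ) - 1 / 2) * Real.exp (-κ)⌋₊ - 1 : ℕ) : ℝ) =
        (y : ℝ) - ⌊((y : ℝ) - 1 / 2) * Real.exp (-κ)⌋₊ - 1 := by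
      rw [Nat.cast_sub (by omega), Nat.cast_sub h2.le, Nat.cast_one]
    rw [h3]
    have h4 := Nat.lt_floor_add_one (((y : ℝ) - 1 / 2) * Real.exp (-κ))
    have h5 : 1 - κ ≤ Real.exp (-κ) := by linarith [Real.add_one_le_exp (-κ)]
    have h6 : ((y : ℝ) - 1 / 2) * (1 - κ) ≤ ((y : ℝ) - 1 / 2) * Real.exp (-κ) :=
      mul_le_mul_of_nonneg_left h5 hy2.le
    nlinarith
  have hcard : ((F \ G.biUnion W).card : ℝ) ≤ 3 * κ * y + 1 / 2 := by
    have h1 := (card_le_card hE).trans (card_union_le _ _)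
    have h2 : ((F \ G.biUnion W).card : ℝ) ≤ ((Ioc x ⌊(x : ℝ) * Real.exp κ⌋₊).card : ℝ) +
        ((Ioo ⌊((y : ℝ) - 1 / 2) * Real.exp (-κ)⌋₊ y).card : ℝ) := by exact_mod_cast h1
    linarith
  have hle : ∑ p ∈ F \ G.biUnion W, Real.log p ≤ (3 * κ * y + 1 / 2) * Real.log y := by
    have h1 : ∑ p ∈ F \ G.biUnion W, Real.log p ≤ (F \ G.biUnion W).card • Real.log y := by
      apply sum_le_card_nsmul
      intro p hp
      rw [Finset.mem_sdiff, hF, mem_filter, mem_Ioo] at hp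
      have hp0 : (0 : ℝ) < p := by exact_mod_cast hp.1.2.1.pos
      have h2' : (p : ℝ) < y := by exact_mod_cast hp.1.1.2
      exact Real.log_le_log hp0 h2'.le
    rw [nsmul_eq_mul] at h1
    exact h1.trans (mul_le_mul_of_nonneg_right hcard hlogy.le)
  rw [hsum, hsplit]
  constructor <;> linarith

lemma bvj_card {s κ a b : ℝ} {M : ℕ} (hκ : 0 < κ) (hab : a ≤ b) :
    (((range M).filter (fun j : ℕ => a ≤ s + j * κ ∧ s + j * κ + κ ≤ b)).card : ℝ) * κ ≤ b - a := by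
  obtain ⟨G, hG⟩ : ∃ G, G = (range M).filter (fun j : ℕ => a ≤ s + j * κ ∧ s + j * κ + κ ≤ b) := ⟨_, rfl⟩
  rw [← hG]
  rcases G.eq_empty_or_nonempty with h | h
  · rw [h, card_empty, Nat.cast_zero, zero_mul]
    linarith
  · have h1 := G.min'_mem h
    have h2 := G.max'_mem h
    have h3 : G ⊆ Icc (G.min' h) (G.max' h) := fun j hj => mem_Icc.2 ⟨G.min'_le j hj, G.le_max' j hj⟩
    have h4 := card_le_card h3
    rw [Nat.card_Icc] at h4
    have h5 : G.min' h ≤ G.max' h := G.min'_le _ h2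
    have h6 : (G.card : ℝ) ≤ (G.max' h : ℝ) + 1 - G.min' h := by
      have h7 : G.card + G.min' h ≤ G.max' h + 1 := by omega
      have h8 : (G.card : ℝ) + G.min' h ≤ G.max' h + 1 := by exact_mod_cast h7
      linarith
    have h1' : a ≤ s + (G.min' h : ℕ) * κ := by
      have : G.min' h ∈ (range M).filter (fun j : ℕ => a ≤ s + j * κ ∧ s + j * κ + κ ≤ b) := hG ▸ h1
      exact (mem_filter.1 this).2.1
    have h2' : s + (G.max' h : ℕ) * κ + κ ≤ b := by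
      have : G.max' h ∈ (range M).filter (fun j : ℕ => a ≤ s + j * κ ∧ s + j * κ + κ ≤ b) := hG ▸ h2
      exact (mem_filter.1 this).2.2
    have h7 := mul_le_mul_of_nonneg_right h6 hκ.le
    have h8 : ((G.max' h : ℝ) + 1 - G.min' h) * κ = (s + (G.max' h : ℕ) * κ + κ) - (s + (G.min' h : ℕ) * κ) := by
      ring
    linarith

/-- one interval in one block -/
lemma bvj_one {δ₁ c₀ Y κ t : ℝ} {A x y Q : ℕ} (hc₀ : 0 < c₀) (hY : 100 ≤ Y) (hκ0 : 0 < κ) (hκs : κ ≤ 1 / 1000)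
    (ht0 : 0 ≤ t) (htκ : t ≤ κ) (hx1 : 1 ≤ x) (hx : Y - 1 / 4 + 0.01 ≤ Real.log x)
    (hx' : Real.log x ≤ Y - 1 / 4 + 0.135) (hy : (y : ℝ) ≤ 1.1 * x) (hQ : Q ≤ Gc δ₁ Y)
    (hκY : 1 ≤ κ * Real.exp Y) (hbig : 20 * (κ * Real.exp Y) ≤ (y : ℝ) - x)
    (hgood : ∀ j ∈ range (⌊1 / (2 * κ)⌋₊ - 1), (x : ℝ) ≤ Real.exp (Y - 1 / 4 + t + (j : ℕ) * κ) →
      Real.exp (Y - 1 / 4 + t + (j : ℕ) * κ + κ) ≤ (y : ℝ) - 1 / 2 →
      c₀ * κ * Real.exp Y ≤ th (Y - 1 / 4 + t + (j : ℕ) * κ) κ 1 0 ∧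
        BVw δ₁ Y κ (Y - 1 / 4 + t + (j : ℕ) * κ) A) :
    c₀ / 2 * ((y : ℝ) - x) ≤ thI x y 1 0 ∧ ∀ a : ℕ → ℕ, (∀ q, (a q).Coprime q) → ∑ q ∈ Icc 1 Q,
      |thI x y q (a q) - thI x y 1 0 / (Nat.totient q : ℝ)| ≤
        2 * ((y : ℝ) - x) / Y ^ A + Q * (4 * (κ * Real.exp Y) * Y) := by
  classical
  have hx0 : (0 : ℝ) < x := by exact_mod_cast hx1
  have hE : 0 < Real.exp Y := Real.exp_pos Y
  have hxy1 : (x : ℝ) + 20 ≤ y := by linarith
  have hxy : x < y := by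
    have : (x : ℝ) < y := by linarith
    exact_mod_cast this
  have hy0 : (0 : ℝ) < y := by linarith
  have hl11 : Real.log 1.1 ≤ 0.1 := by
    have := Real.log_le_sub_one_of_pos (show (0 : ℝ) < 1.1 by norm_num)
    linarith
  have hlogy : Real.log y ≤ Y - 0.015 := by
    have h1 := Real.log_le_log hy0 hy
    rw [Real.log_mul (by norm_num) hx0.ne'] at h1
    linarith
  have hyE : (y : ℝ) ≤ Real.exp Y := (Real.log_le_iff_le_exp hy0).1 (by linarith)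
  have hEx : Real.exp Y ≤ 1.3 * x := by
    have h1 : Real.exp (Y - 1 / 4 + 0.01) ≤ x := (Real.le_log_iff_exp_le hx0).1 hx
    have h2 : Real.exp Y = Real.exp (Y - 1 / 4 + 0.01) * Real.exp 0.24 := by
      rw [← Real.exp_add]; congr 1; ring
    have h3 : Real.exp 0.24 ≤ 1.3 := by
      have h := Real.exp_bound' (x := 0.24) (by norm_num) (by norm_num) (n := 3) (by norm_num)
      norm_num [Finset.sum_range_succ, Nat.factorial] at h
      linarith
    rw [h2]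
    calc Real.exp (Y - 1 / 4 + 0.01) * Real.exp 0.24 ≤ x * 1.3 :=
          mul_le_mul h1 h3 (Real.exp_pos _).le hx0.le
      _ = _ := mul_comm _ _
  -- the grid
  obtain ⟨M, hM⟩ : ∃ M, M = ⌊1 / (2 * κ)⌋₊ - 1 := ⟨_, rfl⟩
  obtain ⟨s, hs⟩ : ∃ s, s = Y - 1 / 4 + t := ⟨_, rfl⟩
  obtain ⟨y1, hy1⟩ : ∃ y1 : ℝ, y1 = (y : ℝ) - 1 / 2 := ⟨_, rfl⟩
  have hy10 : 0 < y1 := by rw [hy1]; linarith
  have hxy1' : (x : ℝ) < y1 := by rw [hy1]; linarith
  have hMκ : 1 / 2 - 2 * κ ≤ M * κ := by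
    have h5 : 1 / (2 * κ) - 1 < ⌊1 / (2 * κ)⌋₊ := Nat.sub_one_lt_floor _
    have h6 : ((⌊1 / (2 * κ)⌋₊ : ℝ)) - 1 ≤ M := by
      rw [sub_le_iff_le_add, hM]
      have : ⌊1 / (2 * κ)⌋₊ ≤ ⌊1 / (2 * κ)⌋₊ - 1 + 1 := by omega
      exact_mod_cast this
    have h7 : 1 / (2 * κ) - 2 ≤ M := by linarith
    have h8 := mul_le_mul_of_nonneg_right h7 hκ0.le
    have h9 : (1 / (2 * κ) - 2) * κ = 1 / 2 - 2 * κ := by field_simp
    linarith
  have hsx : s ≤ Real.log x := by rw [hs]; linarith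
  have hlogy1 : Real.log y1 ≤ Real.log y := Real.log_le_log hy10 (by rw [hy1]; linarith)
  have hbM : Real.log y ≤ s + M * κ := by rw [hs]; linarith
  have hab : Real.log x ≤ Real.log y1 := Real.log_le_log hx0 hxy1'.le
  obtain ⟨G, hG⟩ : ∃ G, G = (range M).filter (fun j : ℕ => Real.log x ≤ s + j * κ ∧
      s + j * κ + κ ≤ Real.log ((y : ℝ) - 1 / 2)) := ⟨_, rfl⟩
  have hg := grid (M := M) hκ0 hsx (hlogy1.trans hbM)
  have hg2 := bvj_card (M := M) (s := s) hκ0 hab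
  rw [hy1, ← hG, ← hy1] at hg hg2
  have hdiff1 : Real.log y1 - Real.log x ≤ ((y : ℝ) - x) / x := by
    have h6 := Real.log_le_sub_one_of_pos (show 0 < y1 / x by positivity)
    rw [Real.log_div hy10.ne' hx0.ne'] at h6
    have h7 : y1 / x - 1 = (y1 - x) / x := by field_simp
    rw [h7] at h6
    refine h6.trans (div_le_div_of_nonneg_right ?_ hx0.le)
    rw [hy1]; linarith
  have hdiff2 : (y1 - x) / Real.exp Y ≤ Real.log y1 - Real.log x := by
    have h6 := Real.one_sub_inv_le_log_of_pos (show 0 < y1 / x by positivity)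
    rw [Real.log_div hy10.ne' hx0.ne', inv_div] at h6
    have h7 : (y1 - x) / y1 = 1 - x / y1 := by field_simp
    refine le_trans ?_ (h7.le.trans h6)
    apply div_le_div_of_nonneg_left (by linarith) hy10
    rw [hy1]; linarith
  have hyx : 0 ≤ (y : ℝ) - x := by linarith
  have hGup : (G.card : ℝ) * (κ * Real.exp Y) ≤ 2 * ((y : ℝ) - x) := by
    have h1 : (G.card : ℝ) * κ ≤ ((y : ℝ) - x) / x := hg2.trans hdiff1
    have h2 := mul_le_mul_of_nonneg_right h1 hE.le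
    have h3 : ((y : ℝ) - x) / x * Real.exp Y ≤ ((y : ℝ) - x) / x * (1.3 * x) :=
      mul_le_mul_of_nonneg_left hEx (by positivity)
    have h4 : ((y : ℝ) - x) / x * (1.3 * x) = 1.3 * ((y : ℝ) - x) := by field_simp
    rw [← mul_assoc]
    linarith
  have hGlo : ((y : ℝ) - x) / 2 ≤ (G.card : ℝ) * (κ * Real.exp Y) := by
    have h1 : (Real.log y1 - Real.log x) - 2 * κ ≤ (G.card : ℝ) * κ := by
      have h2 := mul_le_mul_of_nonneg_right hg hκ0.le
      have h3 : ((Real.log y1 - Real.log x) / κ - 2) * κ = (Real.log y1 - Real.log x) - 2 * κ := by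
        field_simp
      linarith
    have h2 := mul_le_mul_of_nonneg_right h1 hE.le
    have h3 := mul_le_mul_of_nonneg_right hdiff2 hE.le
    rw [div_mul_cancel₀ _ hE.ne'] at h3
    rw [← mul_assoc]
    have h4 : (y : ℝ) - x - 1 / 2 ≤ y1 - x := by rw [hy1]; linarith
    nlinarith
  have hGg : ∀ j ∈ G, c₀ * κ * Real.exp Y ≤ th (s + (j : ℕ) * κ) κ 1 0 ∧ BVw δ₁ Y κ (s + (j : ℕ) * κ) A := by
    intro j hj
    rw [hG, mem_filter] at hj
    have h5 : (x : ℝ) ≤ Real.exp (s + (j : ℕ) * κ) := (Real.log_le_iff_le_exp hx0).1 hj.2.1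
    have h6 : Real.exp (s + (j : ℕ) * κ + κ) ≤ (y : ℝ) - 1 / 2 := by
      rw [← hy1]; exact (Real.le_log_iff_exp_le hy10).1 (by rw [hy1]; exact hj.2.2)
    rw [hM] at hj
    have := hgood j hj.1
    rw [← hs] at this
    exact this h5 h6
  have hκ2 : κ ≤ 1 / 2 := by linarith
  obtain ⟨e, he⟩ : ∃ e, e = 4 * (κ * Real.exp Y) * Y := ⟨_, rfl⟩
  have hPe : (3 * κ * y + 1 / 2) * Real.log y ≤ e := by
    have h1 : 3 * κ * (y : ℝ) ≤ 3 * κ * Real.exp Y := mul_le_mul_of_nonneg_left hyE (by positivity)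
    have h2 : 3 * κ * (y : ℝ) + 1 / 2 ≤ 4 * (κ * Real.exp Y) := by linarith
    rw [he]
    have h3 : 0 ≤ Real.log (y : ℝ) := Real.log_natCast_nonneg y
    exact mul_le_mul h2 (by linarith) h3 (by positivity)
  have hP : ∀ q a : ℕ, ∑ j ∈ G, th (s + (j : ℕ) * κ) κ q a ≤ thI x y q a ∧
      thI x y q a ≤ ∑ j ∈ G, th (s + (j : ℕ) * κ) κ q a + e := fun q a =>
    ⟨(bvj_parts hx1 hxy hκ0 hκ2 hsx hbM G hG).1, (bvj_parts hx1 hxy hκ0 hκ2 hsx hbM G hG).2.trans (by linarith)⟩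
  constructor
  · refine le_trans ?_ (hP 1 0).1
    have h1 : (G.card : ℝ) * (c₀ * κ * Real.exp Y) ≤ ∑ j ∈ G, th (s + (j : ℕ) * κ) κ 1 0 := by
      rw [← nsmul_eq_mul]
      exact card_nsmul_le_sum _ _ _ (fun j hj => (hGg j hj).1)
    refine le_trans ?_ h1
    have h2 := mul_le_mul_of_nonneg_left hGlo hc₀.le
    calc c₀ / 2 * ((y : ℝ) - x) = c₀ * (((y : ℝ) - x) / 2) := by ring
      _ ≤ c₀ * ((G.card : ℝ) * (κ * Real.exp Y)) := h2
      _ = _ := by ring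
  · intro a ha
    have h1 : ∀ q ∈ Icc 1 Q, |thI x y q (a q) - thI x y 1 0 / (Nat.totient q : ℝ)| ≤
        ∑ j ∈ G, |th (s + (j : ℕ) * κ) κ q (a q) - th (s + (j : ℕ) * κ) κ 1 0 / (Nat.totient q : ℝ)| + e := by
      intro q hq
      rw [mem_Icc] at hq
      have hφ : (1 : ℝ) ≤ Nat.totient q := by
        have := Nat.totient_pos.2 (show 0 < q by omega)
        exact_mod_cast this
      obtain ⟨p1, p2⟩ := hP q (a q)
      obtain ⟨p3, p4⟩ := hP 1 0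
      have h2 : |∑ j ∈ G, (th (s + (j : ℕ) * κ) κ q (a q) - th (s + (j : ℕ) * κ) κ 1 0 / (Nat.totient q : ℝ))| ≤
          ∑ j ∈ G, |th (s + (j : ℕ) * κ) κ q (a q) - th (s + (j : ℕ) * κ) κ 1 0 / (Nat.totient q : ℝ)| :=
        abs_sum_le_sum_abs _ _
      rw [sum_sub_distrib, ← sum_div] at h2
      obtain ⟨T1, hT1⟩ : ∃ T1, T1 = ∑ j ∈ G, th (s + (j : ℕ) * κ) κ q (a q) := ⟨_, rfl⟩
      obtain ⟨T0, hT0⟩ : ∃ T0, T0 = ∑ j ∈ G, th (s + (j : ℕ) * κ) κ 1 0 := ⟨_, rfl⟩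
      rw [← hT1, ← hT0] at h2
      rw [← hT1] at p1 p2
      rw [← hT0] at p3 p4
      have q1 : T0 / (Nat.totient q : ℝ) ≤ thI x y 1 0 / (Nat.totient q : ℝ) :=
        div_le_div_of_nonneg_right p3 (by linarith)
      have q2 : thI x y 1 0 / (Nat.totient q : ℝ) ≤ T0 / (Nat.totient q : ℝ) + e := by
        have he0 : 0 ≤ e := by linarith
        have := div_le_div_of_nonneg_right p4 (show (0 : ℝ) ≤ Nat.totient q by linarith)
        rw [add_div] at this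
        have h3 : e / (Nat.totient q : ℝ) ≤ e := div_le_self he0 hφ
        linarith
      rw [abs_le] at h2 ⊢
      constructor <;> linarith [h2.1, h2.2]
    refine (sum_le_sum h1).trans ?_
    rw [sum_add_distrib, sum_const, Nat.card_Icc, Nat.add_sub_cancel, nsmul_eq_mul, ← he]
    have h2 : ∑ q ∈ Icc 1 Q, ∑ j ∈ G, |th (s + (j : ℕ) * κ) κ q (a q) -
        th (s + (j : ℕ) * κ) κ 1 0 / (Nat.totient q : ℝ)| ≤ 2 * ((y : ℝ) - x) / Y ^ A := by
      rw [sum_comm]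
      have h3 : ∀ j ∈ G, ∑ q ∈ Icc 1 Q, |th (s + (j : ℕ) * κ) κ q (a q) -
          th (s + (j : ℕ) * κ) κ 1 0 / (Nat.totient q : ℝ)| ≤ κ * Real.exp Y / Y ^ A := by
        intro j hj
        refine le_trans ?_ ((hGg j hj).2 a ha)
        exact sum_le_sum_of_subset_of_nonneg (Icc_subset_Icc_right hQ) (fun _ _ _ => abs_nonneg _)
      refine (sum_le_card_nsmul _ _ _ h3).trans ?_
      rw [nsmul_eq_mul, mul_div_assoc']
      exact div_le_div_of_nonneg_right hGup (by positivity)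
    linarith

/-- the limit condition -/
lemma bvj_lim (A : ℕ) {ν : ℝ} (hν : 0 < ν) :
    ∀ᶠ X : ℕ in atTop, 16 * (Real.log X + 1) ^ (A + 1) ≤ (X : ℝ) ^ ν := by
  have h1 : Tendsto (fun X : ℕ => Real.log X ^ (((A + 1 : ℕ) : ℝ)) / (X : ℝ) ^ ν) atTop (nhds 0) :=
    ((isLittleO_log_rpow_rpow_atTop (((A + 1 : ℕ) : ℝ)) hν).tendsto_div_nhds_zero).comp
      tendsto_natCast_atTop_atTop
  have hlog : Tendsto (fun k : ℕ => Real.log k) atTop atTop :=
    Real.tendsto_log_atTop.comp tendsto_natCast_atTop_atTop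
  have h0 : (0 : ℝ) < 1 / (16 * 2 ^ (A + 1)) := by positivity
  filter_upwards [h1.eventually (gt_mem_nhds h0), hlog.eventually_ge_atTop 1, eventually_ge_atTop 1] with X g1 g2 g3
  have hX0 : (0 : ℝ) < X := by exact_mod_cast g3
  have hp : 0 < (X : ℝ) ^ ν := by positivity
  rw [Real.rpow_natCast, div_lt_iff₀ hp] at g1
  have h2 : (Real.log X + 1) ^ (A + 1) ≤ 2 ^ (A + 1) * Real.log X ^ (A + 1) := by
    rw [← mul_pow]
    exact pow_le_pow_left₀ (by linarith) (by linarith) _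
  have h3 : 16 * 2 ^ (A + 1) * Real.log X ^ (A + 1) ≤ (X : ℝ) ^ ν := by
    have h4 := mul_le_mul_of_nonneg_left g1.le (show (0 : ℝ) ≤ 16 * 2 ^ (A + 1) by positivity)
    have h5 : (16 : ℝ) * 2 ^ (A + 1) * (1 / (16 * 2 ^ (A + 1)) * (X : ℝ) ^ ν) = (X : ℝ) ^ ν := by
      field_simp
    linarith
  linarith

theorem s_BVJ (hB : S_BVP) (hP : S_POOR) : S_BVJ := by
  classical
  obtain ⟨δ₁, η, hδ₁, hδ₁', hη, hη', hB⟩ := hB
  obtain ⟨c₀, η', YP, hc₀, hη'0, hP⟩ := hP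
  obtain ⟨μ, hμd⟩ : ∃ μ, μ = min (η / 2) η' := ⟨_, rfl⟩
  have hμ : 0 < μ := by rw [hμd]; exact lt_min (by positivity) hη'0
  have hμη : μ ≤ η / 2 := by rw [hμd]; exact min_le_left _ _
  have hμη' : μ ≤ η' := by rw [hμd]; exact min_le_right _ _
  obtain ⟨δ, hδd⟩ : ∃ δ, δ = min (μ / 8) (δ₁ / 2) := ⟨_, rfl⟩
  have hδ : 0 < δ := by rw [hδd]; exact lt_min (by positivity) (by positivity)
  have hδμ : δ ≤ μ / 8 := by rw [hδd]; exact min_le_left _ _
  have hδδ₁ : δ ≤ δ₁ / 2 := by rw [hδd]; exact min_le_right _ _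
  refine ⟨δ, c₀ / 2, hδ, by positivity, fun A => ?_⟩
  obtain ⟨YB, hB⟩ := hB (A + 3)
  -- the blocks
  obtain ⟨Ys, hYs⟩ : ∃ Ys, Ys = max (max YP YB) 1 := ⟨_, rfl⟩
  set kap : ℝ → ℝ := fun Y => Real.exp (-((1 / 2 + μ) * Y)) with hkap
  have hblock : ∀ Y : ℝ, Ys ≤ Y → ∃ t : ℝ, 0 ≤ t ∧ t ≤ kap Y ∧
      ((Bdw δ₁ c₀ Y (kap Y) t (A + 3)).card : ℝ) ≤ 2 * Real.exp ((1 / 2 - μ) * Y) := by
    intro Y hY
    rw [hYs] at hY
    simp only [max_le_iff] at hY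
    obtain ⟨⟨hY1, hY2⟩, hY3⟩ := hY
    have hk1 : Real.exp (-((1 / 2 + η) * Y)) ≤ kap Y := by
      rw [hkap]; apply Real.exp_le_exp.2; nlinarith
    have hk1' : Real.exp (-((1 / 2 + η') * Y)) ≤ kap Y := by
      rw [hkap]; apply Real.exp_le_exp.2; nlinarith
    have hk2 : kap Y ≤ Real.exp (-(Y / 4)) := by
      rw [hkap]; apply Real.exp_le_exp.2; nlinarith
    obtain ⟨t, ht0, ht1, ht⟩ := hB Y hY2 (kap Y) hk1 hk2
    refine ⟨t, ht0, ht1, ?_⟩
    refine Bdw_card (by linarith) rfl hμη (by linarith) (hP Y hY1 (kap Y) t hk1' hk2 ht0 ht1) ?_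
    refine le_trans (le_of_eq ?_) ht
    rw [Nat.cast_inj]
    congr 1
  choose! tt htt0 htt1 htt2 using hblock
  have hlogX : Tendsto (fun k : ℕ => Real.log k) atTop atTop :=
    Real.tendsto_log_atTop.comp tendsto_natCast_atTop_atTop
  have hν : 0 < 3 * μ / 4 := by positivity
  obtain ⟨X₀, hX₀⟩ := eventually_atTop.1 ((hlogX.eventually_ge_atTop (max Ys 10000)).and (bvj_lim A hν))
  refine ⟨max X₀ 1, fun X hX => ?_⟩
  obtain ⟨f1, f2⟩ := hX₀ X (le_trans (le_max_left _ _) hX)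
  have hX1 : 1 ≤ X := le_trans (le_max_right _ _) hX
  have hX1r : (1 : ℝ) ≤ X := by exact_mod_cast hX1
  have hX0 : (0 : ℝ) < X := by linarith
  obtain ⟨L, hL⟩ : ∃ L, L = Real.log X := ⟨_, rfl⟩
  rw [← hL] at f1 f2
  have hLs : Ys ≤ L := (le_max_left _ _).trans f1
  have hL1 : 10000 ≤ L := (le_max_right _ _).trans f1
  have hXL : (X : ℝ) = Real.exp L := by rw [hL, Real.exp_log hX0]
  -- powers
  have hw : ∀ Y : ℝ, Y ≤ L + 1 → Real.exp ((1 / 2 - μ) * Y) ≤ 2 * (X : ℝ) ^ (1 / 2 - μ) := by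
    intro Y hY
    have h1 : (1 / 2 - μ) * Y ≤ 1 / 2 + L * (1 / 2 - μ) := by nlinarith
    refine (Real.exp_le_exp.2 h1).trans ?_
    rw [Real.exp_add, Real.rpow_def_of_pos hX0, ← hL]
    apply mul_le_mul_of_nonneg_right _ (Real.exp_pos _).le
    have h := Real.exp_bound' (x := 1 / 2) (by norm_num) (by norm_num) (n := 3) (by norm_num)
    norm_num [Finset.sum_range_succ, Nat.factorial] at h
    linarith
  have hp1 : 0 < (X : ℝ) ^ (1 / 2 - μ) := by positivity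
  have hp2 : (X : ℝ) ^ (3 * μ / 4) * ((X : ℝ) ^ δ * (X : ℝ) ^ (1 / 2 - μ)) ≤ (X : ℝ) ^ (1 / 2 - δ) := by
    rw [← Real.rpow_add hX0, ← Real.rpow_add hX0]
    apply Real.rpow_le_rpow_of_exponent_le hX1r
    linarith
  have hp3 : 1 ≤ (X : ℝ) ^ δ := Real.one_le_rpow hX1r hδ.le
  have hL16 : 100 ≤ (X : ℝ) ^ (3 * μ / 4) := by
    refine le_trans ?_ f2
    have h1 : L + 1 ≤ (L + 1) ^ (A + 1) := le_self_pow₀ (by linarith) (by omega)
    linarith
  have hp4 : 100 * (X : ℝ) ^ (1 / 2 - μ) ≤ (X : ℝ) ^ (1 / 2 - δ) := by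
    refine le_trans ?_ hp2
    have h1 : (X : ℝ) ^ (1 / 2 - μ) ≤ (X : ℝ) ^ δ * (X : ℝ) ^ (1 / 2 - μ) :=
      le_mul_of_one_le_left hp1.le hp3
    exact mul_le_mul hL16 h1 hp1.le (by positivity)
  obtain ⟨Bi, hBi⟩ : ∃ Bi : ℕ → Finset ℕ, Bi = fun i : ℕ => (Bdw δ₁ c₀ (L + (i : ℝ) / 8) (kap (L + (i : ℝ) / 8))
    (tt (L + (i : ℝ) / 8)) (A + 3)).image (fun j : ℕ =>
      ⌈Real.exp (L + (i : ℝ) / 8 - 1 / 4 + tt (L + (i : ℝ) / 8) + j * kap (L + (i : ℝ) / 8))⌉₊) := ⟨_, rfl⟩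
  refine ⟨(Icc 1 8).biUnion Bi, ?_, ?_⟩
  · have h1 : ∀ i ∈ Icc 1 8, ((Bi i).card : ℝ) ≤ 4 * (X : ℝ) ^ (1 / 2 - μ) := by
      intro i hi
      rw [mem_Icc] at hi
      have hi1 : (1 : ℝ) ≤ i := by exact_mod_cast hi.1
      have hi2 : (i : ℝ) ≤ 8 := by exact_mod_cast hi.2
      have h2 : Ys ≤ L + (i : ℝ) / 8 := by linarith
      have h3 := htt2 _ h2
      have h4 := hw (L + (i : ℝ) / 8) (by linarith)
      have h5 : ((Bi i).card : ℝ) ≤
        ((Bdw δ₁ c₀ (L + (i : ℝ) / 8) (kap (L + (i : ℝ) / 8)) (tt (L + (i : ℝ) / 8)) (A + 3)).card : ℝ) := by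
        rw [hBi]
        exact_mod_cast card_image_le
      linarith
    have h2 : (((Icc 1 8).biUnion Bi).card : ℝ) ≤ ∑ i ∈ Icc 1 8, ((Bi i).card : ℝ) := by
      exact_mod_cast card_biUnion_le
    refine h2.trans ((sum_le_card_nsmul _ _ _ h1).trans ?_)
    rw [Nat.card_Icc, nsmul_eq_mul]
    push_cast
    linarith
  · intro x y hXx hyX hxy hy11 hdisj
    have hXx' : (X : ℝ) ≤ x := by exact_mod_cast hXx
    have hx0 : (0 : ℝ) < x := by linarith
    have hx1 : 1 ≤ x := hX1.trans hXx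
    have hp0 : 0 < (X : ℝ) ^ (1 / 2 - δ) := by positivity
    have hyx0 : 0 < (y : ℝ) - x := by linarith
    have hy2X : (y : ℝ) ≤ 2 * X := by exact_mod_cast hyX
    obtain ⟨l, hl⟩ : ∃ l, l = Real.log x - L := ⟨_, rfl⟩
    have hl0 : 0 ≤ l := by
      rw [hl, hL]
      have := Real.log_le_log hX0 hXx'
      linarith
    have hl1 : l ≤ 0.7 := by
      have h1 : (x : ℝ) ≤ 2 * X := by linarith
      have h2 := Real.log_le_log hx0 h1
      rw [Real.log_mul (by norm_num) hX0.ne', ← hL] at h2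
      have := Real.log_two_lt_d9
      linarith
    obtain ⟨i, hi⟩ : ∃ i, i = ⌊8 * l + 1.92⌋₊ := ⟨_, rfl⟩
    have hi1 : (i : ℝ) ≤ 8 * l + 1.92 := by rw [hi]; exact Nat.floor_le (by positivity)
    have hi2 : 8 * l + 1.92 < (i : ℝ) + 1 := by rw [hi]; exact Nat.lt_floor_add_one _
    have hi3 : 1 ≤ i := by
      have : (0 : ℝ) < i := by linarith
      exact_mod_cast this
    have hi4 : i ≤ 8 := by
      have : (i : ℝ) < (8 : ℕ) := by push_cast; linarith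
      have : i < 8 := by exact_mod_cast this
      omega
    have hi8 : (i : ℝ) ≤ 8 := by exact_mod_cast hi4
    have hi0 : (1 : ℝ) ≤ i := by exact_mod_cast hi3
    obtain ⟨Y, hYd⟩ : ∃ Y, Y = L + (i : ℝ) / 8 := ⟨_, rfl⟩
    have hYs' : Ys ≤ Y := by rw [hYd]; linarith
    have hYL : L ≤ Y := by rw [hYd]; linarith
    have hYL1 : Y ≤ L + 1 := by rw [hYd]; linarith
    have hκ0 : 0 < kap Y := by rw [hkap]; exact Real.exp_pos _
    have hκ4 : kap Y ≤ Real.exp (-(Y / 4)) := by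
      rw [hkap]; apply Real.exp_le_exp.2; nlinarith
    have hκs : kap Y ≤ 1 / 1000 := by
      refine hκ4.trans ?_
      rw [Real.exp_neg, one_div]
      apply inv_anti₀ (by norm_num)
      have := Real.add_one_le_exp (Y / 4)
      linarith
    have hκE : kap Y * Real.exp Y = Real.exp ((1 / 2 - μ) * Y) := by
      rw [hkap, ← Real.exp_add]; congr 1; ring
    have hκY : 1 ≤ kap Y * Real.exp Y := by
      rw [hκE]; apply Real.one_le_exp; nlinarith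
    have hκE2 : kap Y * Real.exp Y ≤ 2 * (X : ℝ) ^ (1 / 2 - μ) := by rw [hκE]; exact hw Y hYL1
    have hQ : ⌊(X : ℝ) ^ δ⌋₊ ≤ Gc δ₁ Y := by
      unfold Gc
      apply Nat.floor_le_floor
      rw [Real.rpow_def_of_pos hX0, ← hL]
      apply Real.exp_le_exp.2
      nlinarith
    have hmain := bvj_one (δ₁ := δ₁) (c₀ := c₀) (Y := Y) (κ := kap Y) (t := tt Y) (A := A + 3) (x := x) (y := y)
      (Q := ⌊(X : ℝ) ^ δ⌋₊) hc₀ (by linarith) hκ0 hκs (htt0 Y hYs') (htt1 Y hYs') hx1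
      (by rw [hYd]; linarith) (by rw [hYd]; linarith) hy11 hQ hκY (by linarith) (by
        intro j hj h1 h2
        by_cases hb : j ∈ Bdw δ₁ c₀ Y (kap Y) (tt Y) (A + 3)
        · exfalso
          have hmem : ⌈Real.exp (Y - 1 / 4 + tt Y + j * kap Y)⌉₊ ∈ (Icc 1 8).biUnion Bi := by
            rw [mem_biUnion]
            refine ⟨i, mem_Icc.2 ⟨hi3, hi4⟩, ?_⟩
            rw [hBi]
            simp only [mem_image]
            exact ⟨j, by rw [← hYd]; exact hb, by rw [← hYd]⟩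
          refine disjoint_left.1 hdisj hmem ?_
          rw [mem_Icc]
          constructor
          · have h3 := h1.trans (Nat.le_ceil _)
            exact_mod_cast h3
          · have h3 : (⌈Real.exp (Y - 1 / 4 + tt Y + j * kap Y)⌉₊ : ℝ) <
              Real.exp (Y - 1 / 4 + tt Y + j * kap Y) + 1 := Nat.ceil_lt_add_one (Real.exp_pos _).le
            have h4 : Real.exp (Y - 1 / 4 + tt Y + j * kap Y) ≤
              Real.exp (Y - 1 / 4 + tt Y + j * kap Y + kap Y) := Real.exp_le_exp.2 (by linarith)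
            have h5 : (⌈Real.exp (Y - 1 / 4 + tt Y + j * kap Y)⌉₊ : ℝ) < ((y + 1 : ℕ) : ℝ) := by
              push_cast; linarith
            have h6 : ⌈Real.exp (Y - 1 / 4 + tt Y + j * kap Y)⌉₊ < y + 1 := by exact_mod_cast h5
            omega
        · unfold Bdw at hb
          rw [mem_filter, not_and, not_or, not_not, not_lt] at hb
          exact hb hj)
    refine ⟨hmain.1, fun a ha => (hmain.2 a ha).trans ?_⟩
    rw [← hL]
    have hY0 : 0 < Y := by linarith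
    have hL0 : 0 < L := by linarith
    have hLY : ((y : ℝ) - x) / Y ^ A ≤ ((y : ℝ) - x) / L ^ A :=
      div_le_div_of_nonneg_left hyx0.le (by positivity) (pow_le_pow_left₀ hL0.le hYL A)
    refine le_trans ?_ hLY
    have h1 : 2 * ((y : ℝ) - x) / Y ^ (A + 3) ≤ ((y : ℝ) - x) / Y ^ A / 2 := by
      rw [pow_add, div_div, div_le_div_iff₀ (by positivity) (by positivity)]
      have h2 : (4 : ℝ) ≤ Y ^ 3 := by
        have : (2 : ℝ) ^ 3 ≤ Y ^ 3 := pow_le_pow_left₀ (by norm_num) (by linarith) 3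
        linarith
      have h3 : 0 < Y ^ A := by positivity
      have h4 : 0 ≤ ((y : ℝ) - x) * Y ^ A := by positivity
      nlinarith
    have h2 : (⌊(X : ℝ) ^ δ⌋₊ : ℝ) * (4 * (kap Y * Real.exp Y) * Y) ≤ ((y : ℝ) - x) / Y ^ A / 2 := by
      have h3 : (⌊(X : ℝ) ^ δ⌋₊ : ℝ) ≤ (X : ℝ) ^ δ := Nat.floor_le (by positivity)
      rw [div_div, le_div_iff₀ (by positivity)]
      have hYA : Y ^ (A + 1) ≤ (L + 1) ^ (A + 1) := pow_le_pow_left₀ hY0.le hYL1 _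
      calc (⌊(X : ℝ) ^ δ⌋₊ : ℝ) * (4 * (kap Y * Real.exp Y) * Y) * (Y ^ A * 2)
          ≤ (X : ℝ) ^ δ * (4 * (2 * (X : ℝ) ^ (1 / 2 - μ)) * Y) * (Y ^ A * 2) := by gcongr
        _ = 16 * Y ^ (A + 1) * ((X : ℝ) ^ δ * (X : ℝ) ^ (1 / 2 - μ)) := by ring
        _ ≤ 16 * (L + 1) ^ (A + 1) * ((X : ℝ) ^ δ * (X : ℝ) ^ (1 / 2 - μ)) := by gcongr
        _ ≤ (X : ℝ) ^ (3 * μ / 4) * ((X : ℝ) ^ δ * (X : ℝ) ^ (1 / 2 - μ)) := by gcongr
        _ ≤ (X : ℝ) ^ (1 / 2 - δ) := hp2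
        _ ≤ _ := by linarith
    linarith

end Pool.Agent.L7h29.BP
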