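import Pool.Agent.L7h58.BP.Stm

set_option autoImplicit false

/-! Project BP, part FAC: a large irreducible factor from the degrees of all factorizations. -/

namespace Pool.Agent.L7h29.BP

open Polynomial Pool.Agent.L7h58.BP

theorem s_FAC : S_FAC := by
  intro B D hB hD hfg
  have hdeg : ∀ a : ℚ[X], a ∣ B → a.natDegree ≤ D ∨ B.natDegree - D ≤ a.natDegree := by
    rintro a ⟨c, hc⟩
    have h1 := hfg a c hc
    have hac : a * c ≠ 0 := hc ▸ hB
    have h2 : B.natDegree = a.natDegree + c.natDegree := by
      rw [hc]
      exact natDegree_mul (left_ne_zero_of_mul hac) (right_ne_zero_of_mul hac)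
    rcases min_le_iff.mp h1 with h | h
    · exact Or.inl h
    · right; omega
  have key : ∀ k : ℕ, ∀ f : ℚ[X], f.natDegree = k → f ∣ B → B.natDegree - D ≤ f.natDegree →
      ∃ h : ℚ[X], Irreducible h ∧ h ∣ B ∧ B.natDegree - D ≤ h.natDegree := by
    intro k
    induction k using Nat.strong_induction_on with
    | _ k ih =>
      intro f hk hf hn
      by_cases hirr : Irreducible f
      · exact ⟨f, hirr, hf, hn⟩
      have hf0 : f ≠ 0 := fun h0 => hB (by rw [h0] at hf; exact zero_dvd_iff.mp hf)
      have hfu : ¬ IsUnit f := fun hu => by
        have := natDegree_eq_zero_of_isUnit hu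
        omega
      rw [irreducible_iff] at hirr
      push Not at hirr
      obtain ⟨a, b, hab, hau, hbu⟩ := hirr hfu
      have hab0 : a * b ≠ 0 := hab ▸ hf0
      have ha0 : a ≠ 0 := left_ne_zero_of_mul hab0
      have hb0 : b ≠ 0 := right_ne_zero_of_mul hab0
      have hda : 0 < a.natDegree := by
        by_contra hcon
        push Not at hcon
        apply hau
        have h3 : a.natDegree = 0 := by omega
        rw [eq_C_of_natDegree_eq_zero h3]
        apply isUnit_C.mpr
        apply IsUnit.mk0
        intro h4
        apply ha0
        rw [eq_C_of_natDegree_eq_zero h3, h4, C_0]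
      have hdb : 0 < b.natDegree := by
        by_contra hcon
        push Not at hcon
        apply hbu
        have h3 : b.natDegree = 0 := by omega
        rw [eq_C_of_natDegree_eq_zero h3]
        apply isUnit_C.mpr
        apply IsUnit.mk0
        intro h4
        apply hb0
        rw [eq_C_of_natDegree_eq_zero h3, h4, C_0]
      have hdf : f.natDegree = a.natDegree + b.natDegree := by
        rw [hab]; exact natDegree_mul ha0 hb0
      have haB : a ∣ B := (Dvd.intro b hab.symm).trans hf
      have hbB : b ∣ B := (Dvd.intro_left a hab.symm).trans hf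
      rcases hdeg a haB with h5 | h5
      · rcases hdeg b hbB with h6 | h6
        · omega
        · exact ih b.natDegree (by omega) b rfl hbB h6
      · exact ih a.natDegree (by omega) a rfl haB h5
  exact key B.natDegree B rfl dvd_rfl (by omega)

end Pool.Agent.L7h29.BP
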