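import Pool.Agent.L7h29.BP.Thr
import Pool.Agent.L7h58.BP.Stm2

set_option autoImplicit false

/-! Project BP, part NRT. -/

namespace Pool.Agent.L7h29.BP

open Polynomial Pool.Agent.L7h58.BP

theorem s_NRT : S_NRT := by
  intro q hq F hF hd
  exact no_quadratic q (Nat.odd_iff.mpr hq) F hF hd

end Pool.Agent.L7h29.BP
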