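import Pool.Agent.L7h58.BP.Stm

set_option autoImplicit false

/-! Project BP, part OB: few primes with a small order of 2. -/

namespace Pool.Agent.L7h29.BP

open Finset Pool.Agent.L7h58.BP

theorem card_primeFactors_le (i : ℕ) (hi : 1 ≤ i) : (2 ^ i - 1).primeFactors.card ≤ i := by
  have h2i : 2 ≤ 2 ^ i := by
    calc 2 = 2 ^ 1 := by norm_num
      _ ≤ 2 ^ i := Nat.pow_le_pow_right (by norm_num) hi
  have h1 : ∏ p ∈ (2 ^ i - 1).primeFactors, p ≤ 2 ^ i - 1 :=
    Nat.le_of_dvd (by omega) (Nat.prod_primeFactors_dvd _)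
  have h2 : 2 ^ (2 ^ i - 1).primeFactors.card ≤ ∏ p ∈ (2 ^ i - 1).primeFactors, p := by
    rw [← Finset.prod_const]
    apply Finset.prod_le_prod
    · intro j _; norm_num
    · intro j hj
      exact (Nat.prime_of_mem_primeFactors hj).two_le
  have h3 : 2 ^ (2 ^ i - 1).primeFactors.card < 2 ^ i := by omega
  exact ((Nat.pow_lt_pow_iff_right (by norm_num)).mp h3).le

theorem s_OB : S_OB := by
  intro x Y
  unfold cnt
  let T : Finset ℕ := (Icc 1 Y).biUnion (fun i => (2 ^ i - 1).primeFactors)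
  have hmem : ∀ q : {q : ℕ // q.Prime ∧ q ≤ x ∧ 2 < q ∧ orderOf (2 : ZMod q) ≤ Y}, q.1 ∈ T := by
    rintro ⟨q, hq, _, hq2, ho⟩
    have : Fact q.Prime := ⟨hq⟩
    have hne : (2 : ZMod q) ≠ 0 := by
      intro h0
      have : ((2 : ℕ) : ZMod q) = 0 := by exact_mod_cast h0
      rw [ZMod.natCast_eq_zero_iff] at this
      exact absurd (Nat.le_of_dvd (by norm_num) this) (by omega)
    have hpos : 0 < orderOf (2 : ZMod q) := by
      rw [orderOf_pos_iff]
      rw [isOfFinOrder_iff_pow_eq_one]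
      exact ⟨q - 1, by have := hq.two_le; omega, ZMod.pow_card_sub_one_eq_one hne⟩
    simp only [T, mem_biUnion, mem_Icc]
    refine ⟨orderOf (2 : ZMod q), ⟨hpos, ho⟩, ?_⟩
    rw [Nat.mem_primeFactors]
    have h2i : 2 ≤ 2 ^ orderOf (2 : ZMod q) := by
      calc 2 = 2 ^ 1 := by norm_num
        _ ≤ 2 ^ orderOf (2 : ZMod q) := Nat.pow_le_pow_right (by norm_num) hpos
    refine ⟨hq, ?_, by omega⟩
    rw [← ZMod.natCast_eq_zero_iff, Nat.cast_sub (by omega)]
    push_cast
    rw [pow_orderOf_eq_one, sub_self]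
  calc Nat.card {q : ℕ // q.Prime ∧ q ≤ x ∧ 2 < q ∧ orderOf (2 : ZMod q) ≤ Y}
      ≤ Nat.card T := Nat.card_le_card_of_injective (fun q => (⟨q.1, hmem q⟩ : T)) (by
        intro a b hab
        apply Subtype.ext
        simpa using congrArg Subtype.val hab)
    _ = T.card := Nat.card_eq_fintype_card.trans (Fintype.card_coe T)
    _ ≤ ∑ i ∈ Icc 1 Y, (2 ^ i - 1).primeFactors.card := card_biUnion_le
    _ ≤ ∑ _i ∈ Icc 1 Y, Y := by
        apply sum_le_sum
        intro i hi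
        rw [mem_Icc] at hi
        exact (card_primeFactors_le i hi.1).trans hi.2
    _ = Y ^ 2 := by simp [sq]

end Pool.Agent.L7h29.BP
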