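import Pool.Agent.L7h29.BP.Two

set_option autoImplicit false

/-! Project BP, part THR: the prime 3. -/

namespace Pool.Agent.L7h29.BP

open Finset Polynomial Pool.Agent.L7h58.BP

theorem pow2 {K : Type*} [Field K] (h9 : ∀ x : K, x ^ 9 = x) (x : K) (m : ℕ) :
    x ^ (8 * m + 2) = x ^ 2 := by
  induction m with
  | zero => simp
  | succ m ih =>
    rw [show 8 * (m + 1) + 2 = (8 * m + 1) + 9 by ring, pow_add, h9 x, ← pow_succ, ih]

theorem pow6 {K : Type*} [Field K] (h9 : ∀ x : K, x ^ 9 = x) (x : K) (m : ℕ) :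
    x ^ (8 * m + 6) = x ^ 6 := by
  induction m with
  | zero => simp
  | succ m ih =>
    rw [show 8 * (m + 1) + 6 = (8 * m + 5) + 9 by ring, pow_add, h9 x, ← pow_succ, ih]

theorem noroot {K : Type*} [Field K] [CharP K 3] (h9 : ∀ x : K, x ^ 9 = x) (q : ℕ) (hq : Odd q)
    (x : K) : x ^ (2 * q) + (x + 1) ^ (2 * q) + (x + 2) ^ (2 * q) ≠ 0 := by
  have h3 : (3 : K) = 0 := by
    have := CharP.cast_eq_zero K 3
    exact_mod_cast this
  have h2 : (2 : K) ≠ 0 := by
    intro h
    have : (1 : K) = 0 := by linear_combination h3 - h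
    exact one_ne_zero this
  have hsum : x ^ (2 * q) + (x + 1) ^ (2 * q) + (x + 2) ^ (2 * q) = 2 := by
    rcases hq with ⟨k, hk⟩
    rcases Nat.even_or_odd k with ⟨m, hm⟩ | ⟨m, hm⟩
    · have : 2 * q = 8 * m + 2 := by omega
      rw [this, pow2 h9, pow2 h9, pow2 h9]
      linear_combination (x ^ 2 + 2 * x + 1) * h3
    · have : 2 * q = 8 * m + 6 := by omega
      rw [this, pow6 h9, pow6 h9, pow6 h9]
      linear_combination (x^6+6*x^5+25*x^4+60*x^3+85*x^2+66*x+21) * h3
  rw [hsum]
  exact h2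

theorem Sp_three (n : ℕ) : Sp 3 n = (X + C 0) ^ n + (X + C 1) ^ n + (X + C 2) ^ n := by
  unfold Sp
  rw [Finset.sum_range_succ, Finset.sum_range_succ, Finset.sum_range_one]
  simp

theorem coeff_Sp_three (n k : ℕ) :
    (Sp 3 n).coeff k = ((0 : ZMod 3) ^ (n - k) + 1 + 2 ^ (n - k)) * (n.choose k : ZMod 3) := by
  rw [Sp_three, coeff_add, coeff_add, coeff_X_add_C_pow, coeff_X_add_C_pow, coeff_X_add_C_pow,
    one_pow]
  ring

theorem Sp_three_ne_zero (q : ℕ) (hq : 2 < q) : Sp 3 (2 * q) ≠ 0 := by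
  intro h
  have h1 := coeff_Sp_three (2 * q) 0
  rw [h, coeff_zero, Nat.sub_zero, zero_pow (by omega), pow_mul, Nat.choose_zero_right] at h1
  have h4 : (2 : ZMod 3) ^ 2 = 1 := by decide
  rw [h4, one_pow] at h1
  revert h1
  decide

theorem natDegree_Sp_three (q : ℕ) (hq : 2 < q) (hq3 : q % 3 = 2) :
    (Sp 3 (2 * q)).natDegree ≤ 2 * q - 4 := by
  rw [natDegree_le_iff_coeff_eq_zero]
  intro N hN
  rw [coeff_Sp_three]
  rcases Nat.lt_or_ge (2 * q) N with h | h
  · rw [Nat.choose_eq_zero_of_lt h]; simp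
  · have h4 : N = 2 * q ∨ N = 2 * q - 1 ∨ N = 2 * q - 2 ∨ N = 2 * q - 3 := by omega
    rcases h4 with h5 | h5 | h5 | h5
    · rw [show 2 * q - N = 0 by omega]
      have : ((0 : ZMod 3) ^ 0 + 1 + 2 ^ 0) = 0 := by decide
      rw [this, zero_mul]
    · rw [show 2 * q - N = 1 by omega]
      have : ((0 : ZMod 3) ^ 1 + 1 + 2 ^ 1) = 0 := by decide
      rw [this, zero_mul]
    · have h6 : ((2 * q).choose N : ZMod 3) = 0 := by
        rw [ZMod.natCast_eq_zero_iff, h5, Nat.choose_symm_of_eq_add (show 2 * q = (2 * q - 2) + 2 by omega),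
          Nat.choose_two_right]
        have h7 : 2 * q * (2 * q - 1) / 2 = q * (2 * q - 1) := by
          rw [mul_assoc]
          exact Nat.mul_div_cancel_left _ (by norm_num)
        rw [h7]
        apply Dvd.dvd.mul_left
        omega
      rw [h6, mul_zero]
    · rw [show 2 * q - N = 3 by omega]
      have : ((0 : ZMod 3) ^ 3 + 1 + 2 ^ 3) = 0 := by decide
      rw [this, zero_mul]

theorem pow9_zmod3 : ∀ y : ZMod 3, y ^ 9 = y := by decide

/-- a polynomial of degree 2 over `ZMod 3` does not divide `Sp 3 (2 q)` -/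
theorem no_quadratic (q : ℕ) (hq : Odd q) (F : (ZMod 3)[X]) (hF : F ∣ Sp 3 (2 * q))
    (hd : F.natDegree = 2) : False := by
  have hprime : Fact (Nat.Prime 3) := ⟨Nat.prime_three⟩
  obtain ⟨G, hG⟩ := hF
  by_cases hirr : Irreducible F
  · have hfact : Fact (Irreducible F) := ⟨hirr⟩
    have hF0 : F ≠ 0 := hirr.ne_zero
    let K := AdjoinRoot F
    let x : K := AdjoinRoot.root F
    have hfin : Module.finrank (ZMod 3) K = 2 := by
      rw [PowerBasis.finrank (AdjoinRoot.powerBasis hF0), AdjoinRoot.powerBasis_dim, hd]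
    have hfd : FiniteDimensional (ZMod 3) K := Module.finite_of_finrank_pos (by rw [hfin]; norm_num)
    have hKf : Finite K := Module.finite_of_finite (ZMod 3)
    have hKft : Fintype K := Fintype.ofFinite K
    have hcard : Fintype.card K = 9 := by
      rw [Module.card_eq_pow_finrank (K := ZMod 3) (V := K), hfin, ZMod.card]
      norm_num
    have hchar : CharP K 3 := charP_of_injective_algebraMap (algebraMap (ZMod 3) K).injective 3
    have h9 : ∀ y : K, y ^ 9 = y := by
      intro y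
      have := FiniteField.pow_card y
      rwa [hcard] at this
    apply noroot h9 q hq x
    have h1 : aeval x (Sp 3 (2 * q)) = 0 := by
      rw [hG, map_mul]
      have : aeval x F = 0 := by
        rw [AdjoinRoot.aeval_eq]; exact AdjoinRoot.mk_self
      rw [this, zero_mul]
    rw [Sp_three] at h1
    have h2 : algebraMap (ZMod 3) K 2 = 2 := map_ofNat _ 2
    simpa [h2] using h1
  · rw [Polynomial.irreducible_iff_roots_eq_zero_of_degree_le_three (by omega) (by omega)] at hirr
    obtain ⟨x, hx⟩ := Multiset.exists_mem_of_ne_zero hirr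
    have hroot : F.eval x = 0 := (mem_roots'.mp hx).2
    have h9 : ∀ y : ZMod 3, y ^ 9 = y := pow9_zmod3
    apply noroot h9 q hq x
    have h1 : (Sp 3 (2 * q)).eval x = 0 := by
      rw [hG, eval_mul, hroot, zero_mul]
    rw [Sp_three] at h1
    simpa using h1

theorem s_THR (hcri : S_CRI) : S_THR := by
  intro q hq hq2 hq3 f g hfg hf2
  have hodd : Odd q := hq.odd_of_ne_two (by omega)
  obtain ⟨F, G, hFG, hF, hG, hor⟩ := hcri (2 * q) 3 (even_two_mul q) (by omega) Nat.prime_three
    (by omega) f g hfg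
  have hS0 := Sp_three_ne_zero q hq2
  have hFG0 : F * G ≠ 0 := hFG ▸ hS0
  have hF0 : F ≠ 0 := left_ne_zero_of_mul hFG0
  have hG0 : G ≠ 0 := right_ne_zero_of_mul hFG0
  have hb0 : f * g ≠ 0 := hfg ▸ bern_ne_zero _
  have hsum : f.natDegree + g.natDegree = 2 * q := by
    rw [← natDegree_mul (left_ne_zero_of_mul hb0) (right_ne_zero_of_mul hb0), ← hfg,
      natDegree_bern]
  rcases hor with h | h
  · exact no_quadratic q hodd F (Dvd.intro G hFG) (h.trans hf2)
  · have h1 : G.natDegree ≤ (Sp 3 (2 * q)).natDegree :=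
      natDegree_le_of_dvd (Dvd.intro_left F hFG) hS0
    have h2 := natDegree_Sp_three q hq2 hq3
    omega

end Pool.Agent.L7h29.BP
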