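import Pool.Agent.L7h58.BP.Stm

set_option autoImplicit false

/-! Project BP, part TWO: the prime 2. -/

namespace Pool.Agent.L7h29.BP

open Finset Polynomial Pool.Agent.L7h58.BP

theorem natDegree_bern (n : ℕ) : (Polynomial.bernoulli n).natDegree = n := by
  apply natDegree_eq_of_le_of_coeff_ne_zero
  · rw [natDegree_le_iff_coeff_eq_zero]
    intro N hN
    rw [Polynomial.coeff_bernoulli, if_neg (by omega)]
  · rw [Polynomial.coeff_bernoulli, if_pos le_rfl]
    simp

theorem bern_ne_zero (n : ℕ) : Polynomial.bernoulli n ≠ 0 := by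
  intro h
  have h1 : (Polynomial.bernoulli n).coeff n = 1 := by
    rw [Polynomial.coeff_bernoulli, if_pos le_rfl]
    simp
  rw [h] at h1
  simp at h1

/-- the basic polynomial -/
noncomputable def R2 (q : ℕ) : (ZMod 2)[X] := X ^ q + (X + 1) ^ q

theorem Sp_two (e q : ℕ) : Sp 2 (2 ^ e * q) = R2 q ^ (2 ^ e) := by
  unfold Sp R2
  rw [Finset.sum_range_succ, Finset.sum_range_one]
  simp only [Nat.cast_zero, C_0, add_zero, Nat.cast_one, C_1]
  rw [add_pow_char_pow, ← pow_mul, ← pow_mul, mul_comm q]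

theorem coeff_R2_top (q : ℕ) : (R2 q).coeff q = 0 := by
  unfold R2
  rw [coeff_add, coeff_X_pow_self]
  have : ((X + 1 : (ZMod 2)[X]) ^ q).coeff q = 1 := by
    rw [coeff_X_add_one_pow]; simp
  rw [this]
  decide +revert

theorem natDegree_R2 (q : ℕ) (hq : 2 < q) (ho : Odd q) : (R2 q).natDegree = q - 1 := by
  apply natDegree_eq_of_le_of_coeff_ne_zero
  · rw [natDegree_le_iff_coeff_eq_zero]
    intro N hN
    rcases Nat.lt_or_ge q N with h | h
    · unfold R2
      rw [coeff_add, coeff_X_pow, if_neg (by omega), coeff_X_add_one_pow, Nat.choose_eq_zero_of_lt h]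
      simp
    · have : N = q := by omega
      rw [this]; exact coeff_R2_top q
  · unfold R2
    rw [coeff_add, coeff_X_pow, if_neg (by omega), coeff_X_add_one_pow]
    have h1 : q.choose (q - 1) = q := by
      rw [Nat.choose_symm_of_eq_add (show q = (q - 1) + 1 by omega), Nat.choose_one_right]
    rw [h1, zero_add]
    intro h0
    rw [ZMod.natCast_eq_zero_iff] at h0
    rcases ho with ⟨k, hk⟩
    omega

theorem R2_ne_zero (q : ℕ) (hq : 2 < q) (ho : Odd q) : R2 q ≠ 0 := by
  intro h
  have := natDegree_R2 q hq ho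
  rw [h] at this
  simp at this
  omega

/-- every nonconstant divisor of a power of `R2 q` has degree at least `ord_q(2)` -/
theorem le_deg (q N : ℕ) (hq : q.Prime) (hq2 : 2 < q) (Q : (ZMod 2)[X]) (hQ : Q ∣ R2 q ^ N)
    (hd : Q.natDegree ≠ 0) : orderOf (2 : ZMod q) ≤ Q.natDegree := by
  have : Fact q.Prime := ⟨hq⟩
  obtain ⟨P, hP, hPQ⟩ := Polynomial.exists_irreducible_of_natDegree_pos (Nat.pos_of_ne_zero hd)
  have hQ0 : Q ≠ 0 := by
    intro h; rw [h] at hd; simp at hd
  have hPle : P.natDegree ≤ Q.natDegree := natDegree_le_of_dvd hPQ hQ0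
  refine le_trans ?_ hPle
  have hPR : P ∣ R2 q := hP.prime.dvd_of_dvd_pow (hPQ.trans hQ)
  have : Fact (Irreducible P) := ⟨hP⟩
  have hP0 : P ≠ 0 := hP.ne_zero
  let K := AdjoinRoot P
  let x : K := AdjoinRoot.root P
  have hfin : Module.finrank (ZMod 2) K = P.natDegree := by
    rw [PowerBasis.finrank (AdjoinRoot.powerBasis hP0), AdjoinRoot.powerBasis_dim]
  have hPpos : 0 < P.natDegree := hP.natDegree_pos
  have : FiniteDimensional (ZMod 2) K := Module.finite_of_finrank_pos (by rw [hfin]; exact hPpos)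
  have : Finite K := Module.finite_of_finite (ZMod 2)
  have : Fintype K := Fintype.ofFinite K
  have hcard : Fintype.card K = 2 ^ P.natDegree := by
    rw [Module.card_eq_pow_finrank (K := ZMod 2) (V := K), hfin, ZMod.card]
  have : CharP K 2 := charP_of_injective_algebraMap (algebraMap (ZMod 2) K).injective 2
  have hx : x ^ q + (x + 1) ^ q = 0 := by
    obtain ⟨S, hS⟩ := hPR
    have h1 : aeval x (R2 q) = 0 := by
      rw [hS, map_mul]
      have : aeval x P = 0 := by
        rw [AdjoinRoot.aeval_eq]; exact AdjoinRoot.mk_self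
      rw [this, zero_mul]
    unfold R2 at h1
    simpa using h1
  have hx0 : x ≠ 0 := by
    intro h0
    rw [h0, zero_pow (by omega), zero_add, zero_add, one_pow] at hx
    exact one_ne_zero hx
  have h2 : (2 : K) = 0 := by
    have := CharP.cast_eq_zero K 2
    exact_mod_cast this
  let z : K := (x + 1) / x
  have hz : z ^ q = 1 := by
    have h3 : (x + 1) ^ q = x ^ q := by
      have : (x + 1) ^ q = x ^ q + (x ^ q + (x + 1) ^ q) - 2 * x ^ q := by ring
      rw [this, hx, h2]; ring
    simp only [z]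
    rw [div_pow, h3]
    exact div_self (pow_ne_zero _ hx0)
  have hz1 : z ≠ 1 := by
    intro h
    simp only [z] at h
    rw [div_eq_one_iff_eq hx0] at h
    simp at h
  have hz0 : z ≠ 0 := by
    intro h
    rw [h, zero_pow (by omega)] at hz
    exact zero_ne_one hz
  have hord : orderOf z = q := orderOf_eq_prime hz hz1
  have hdvd : q ∣ 2 ^ P.natDegree - 1 := by
    rw [← hord, ← hcard]
    exact orderOf_dvd_of_pow_eq_one (FiniteField.pow_card_sub_one_eq_one z hz0)
  have hpow : (2 : ZMod q) ^ P.natDegree = 1 := by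
    have h4 : 1 ≤ 2 ^ P.natDegree := Nat.one_le_two_pow
    rw [← ZMod.natCast_eq_zero_iff, Nat.cast_sub h4] at hdvd
    push_cast at hdvd
    exact sub_eq_zero.mp hdvd
  exact Nat.le_of_dvd hPpos (orderOf_dvd_of_pow_eq_one hpow)

theorem s_TWO (hcri : S_CRI) : S_TWO := by
  intro e q he hq hq2 f g hfg hlt
  have hodd : Odd q := hq.odd_of_ne_two (by omega)
  have hpe : 2 ≤ 2 ^ e := by
    calc 2 = 2 ^ 1 := by norm_num
      _ ≤ 2 ^ e := Nat.pow_le_pow_right (by norm_num) he
  have hnev : Even (2 ^ e * q) := by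
    apply Even.mul_right
    exact (Nat.even_pow.mpr ⟨even_two, by omega⟩)
  have hn2 : 2 ≤ 2 ^ e * q := by nlinarith
  obtain ⟨F, G, hFG, hF, hG, hor⟩ := hcri (2 ^ e * q) 2 hnev hn2 Nat.prime_two (by omega) f g hfg
  rw [Sp_two] at hFG
  have hR0 : R2 q ^ (2 ^ e) ≠ 0 := pow_ne_zero _ (R2_ne_zero q hq2 hodd)
  have hFG0 : F * G ≠ 0 := hFG ▸ hR0
  have hF0 : F ≠ 0 := left_ne_zero_of_mul hFG0
  have hG0 : G ≠ 0 := right_ne_zero_of_mul hFG0
  have hdegs : F.natDegree + G.natDegree = 2 ^ e * (q - 1) := by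
    rw [← natDegree_mul hF0 hG0, hFG, natDegree_pow, natDegree_R2 q hq2 hodd]
  have hFd : F.natDegree = 0 := by
    by_contra hne
    have := le_deg q (2 ^ e) hq hq2 F (Dvd.intro G hFG) hne
    omega
  rcases hor with h | h
  · left; omega
  · right
    have hb0 : f * g ≠ 0 := hfg ▸ bern_ne_zero _
    have hsum : f.natDegree + g.natDegree = 2 ^ e * q := by
      rw [← natDegree_mul (left_ne_zero_of_mul hb0) (right_ne_zero_of_mul hb0), ← hfg,
        natDegree_bern]
    have h5 : 2 ^ e * (q - 1) = 2 ^ e * q - 2 ^ e := by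
      rw [Nat.mul_sub, mul_one]
    have h6 : 2 ^ e ≤ 2 ^ e * q := Nat.le_mul_of_pos_right _ (by omega)
    omega

end Pool.Agent.L7h29.BP
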